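import Mathlib

/-! Holomorphic maps between normed spaces over the complex numbers: continuity of the derivative,
holomorphy of iterated directional derivatives. -/

set_option autoImplicit false
open Set Metric Filter Topology

namespace Pool.Agent.Squeeze

variable {E F : Type*} [NormedAddCommGroup E] [NormedSpace ℂ E] [NormedAddCommGroup F]
  [NormedSpace ℂ F]

/-- Near a point of `U`, the map has bounded difference and bounded derivative. -/
lemma exists_ball_bounds {f : E → F} {U : Set E} (hU : IsOpen U) (hf : DifferentiableOn ℂ f U)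
    {p : E} (hp : p ∈ U) :
    ∃ ρ > 0, ball p (4 * ρ) ⊆ U ∧ (∀ x ∈ ball p (4 * ρ), ‖f x - f p‖ ≤ 1) ∧
      ∀ y ∈ ball p (2 * ρ), ‖fderiv ℂ f y‖ ≤ 1 / ρ := by
  have hc : ContinuousAt f p := (hf.continuousOn).continuousAt (hU.mem_nhds hp)
  have h1 : ∀ᶠ x in 𝓝 p, x ∈ U ∧ ‖f x - f p‖ ≤ 1 := by
    refine Filter.Eventually.and (hU.mem_nhds hp) ?_
    have := hc.sub_const (f p)
    have h2 : Tendsto (fun x => ‖f x - f p‖) (𝓝 p) (𝓝 0) := by
      simpa using this.norm
    filter_upwards [h2.eventually (gt_mem_nhds (show (0 : ℝ) < 1 by norm_num))] with x hx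
    exact hx.le
  obtain ⟨ε, hε, hb⟩ := Metric.eventually_nhds_iff_ball.1 h1
  refine ⟨ε / 4, by positivity, ?_, ?_, ?_⟩
  · intro x hx
    exact (hb x (by simpa [mul_div_cancel₀] using hx)).1
  · intro x hx
    exact (hb x (by simpa [mul_div_cancel₀] using hx)).2
  · intro y hy
    have hsub : ball y (2 * (ε / 4)) ⊆ ball p ε := by
      intro x hx
      rw [mem_ball] at hx hy ⊢
      have := dist_triangle x y p
      linarith
    have hyp : y ∈ ball p ε := hsub (mem_ball_self (by positivity))
    have hmaps : MapsTo f (ball y (2 * (ε / 4))) (closedBall (f y) 2) := by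
      intro x hx
      rw [mem_closedBall, dist_eq_norm]
      have h3 := (hb x (hsub hx)).2
      have h4 := (hb y hyp).2
      calc ‖f x - f y‖ = ‖(f x - f p) - (f y - f p)‖ := by congr 1; abel
        _ ≤ ‖f x - f p‖ + ‖f y - f p‖ := norm_sub_le _ _
        _ ≤ 2 := by linarith
    have := Complex.norm_fderiv_le_div_of_mapsTo_ball
      (hf.mono (fun x hx => (hb x (hsub hx)).1)) hmaps (by positivity)
    refine this.trans (le_of_eq ?_)
    field_simp

lemma continuousOn_fderiv {f : E → F} {U : Set E} (hU : IsOpen U)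
    (hf : DifferentiableOn ℂ f U) : ContinuousOn (fderiv ℂ f) U := by
  intro p hp
  refine ContinuousAt.continuousWithinAt ?_
  obtain ⟨ρ, hρ, hsub, hb, hd⟩ := exists_ball_bounds hU hf hp
  have hlip : ∀ x ∈ ball p (2 * ρ), ∀ y ∈ ball p (2 * ρ), ‖f x - f y‖ ≤ 1 / ρ * ‖x - y‖ := by
    intro x hx y hy
    refine (convex_ball p (2 * ρ)).norm_image_sub_le_of_norm_fderiv_le (𝕜 := ℂ) ?_ hd hy hx
    intro z hz
    exact (hf z (hsub (ball_subset_ball (by linarith) hz))).differentiableAt
      (hU.mem_nhds (hsub (ball_subset_ball (by linarith) hz)))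
  have key : ∀ q ∈ ball p ρ, ‖fderiv ℂ f q - fderiv ℂ f p‖ ≤ 2 / ρ ^ 2 * ‖q - p‖ := by
    intro q hq
    rw [mem_ball, dist_eq_norm] at hq
    set h : E → F := fun x => f (x + (q - p)) - f x with hh
    have hmem1 : ∀ x ∈ ball p ρ, x + (q - p) ∈ ball p (2 * ρ) := by
      intro x hx
      rw [mem_ball, dist_eq_norm] at hx ⊢
      calc ‖x + (q - p) - p‖ = ‖(x - p) + (q - p)‖ := by congr 1; abel
        _ ≤ ‖x - p‖ + ‖q - p‖ := norm_add_le _ _
        _ < 2 * ρ := by linarith
    have hmem2 : ∀ x ∈ ball p ρ, x ∈ ball p (2 * ρ) := fun x hx =>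
      ball_subset_ball (by linarith) hx
    have h4 : ∀ x ∈ ball p (2 * ρ), DifferentiableAt ℂ f x := by
      intro z hz
      exact (hf z (hsub (ball_subset_ball (by linarith) hz))).differentiableAt
        (hU.mem_nhds (hsub (ball_subset_ball (by linarith) hz)))
    have hdh : ∀ x ∈ ball p ρ, DifferentiableAt ℂ h x := by
      intro x hx
      have h5 : DifferentiableAt ℂ (fun x => f (x + (q - p))) x :=
        (h4 _ (hmem1 x hx)).comp x (by fun_prop)
      exact h5.sub (h4 _ (hmem2 x hx))
    have hmaps : MapsTo h (ball p ρ) (closedBall (h p) (2 * (1 / ρ * ‖q - p‖))) := by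
      intro x hx
      rw [mem_closedBall, dist_eq_norm]
      have hp' : p ∈ ball p ρ := mem_ball_self hρ
      have e1 := hlip _ (hmem1 x hx) _ (hmem2 x hx)
      have e2 := hlip _ (hmem1 p hp') _ (hmem2 p hp')
      rw [add_sub_cancel_left] at e1 e2
      calc ‖h x - h p‖ ≤ ‖h x‖ + ‖h p‖ := norm_sub_le _ _
        _ ≤ _ := by
          rw [two_mul]
          exact add_le_add e1 e2
    have h6 := Complex.norm_fderiv_le_div_of_mapsTo_ball
      (fun x hx => (hdh x hx).differentiableWithinAt) hmaps hρ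
    have h7 : fderiv ℂ h p = fderiv ℂ f q - fderiv ℂ f p := by
      have e1 : HasFDerivAt (fun x => f (x + (q - p))) (fderiv ℂ f q) p := by
        have e3 : HasFDerivAt f (fderiv ℂ f q) (p + (q - p)) := by
          have : p + (q - p) = q := by abel
          rw [this]
          refine (h4 q ?_).hasFDerivAt
          rw [mem_ball, dist_eq_norm]
          linarith
        simpa using! e3.comp p ((hasFDerivAt_id p).add_const (q - p))
      have e2 : HasFDerivAt f (fderiv ℂ f p) p := (h4 p (mem_ball_self (by positivity))).hasFDerivAt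
      exact (e1.sub e2).fderiv
    rw [h7] at h6
    refine h6.trans (le_of_eq ?_)
    field_simp
  refine Metric.continuousAt_iff.2 fun ε hε => ?_
  refine ⟨min ρ (ε * ρ ^ 2 / 4), by positivity, fun {q} hq => ?_⟩
  rw [dist_eq_norm] at hq ⊢
  have hq1 : ‖q - p‖ < ρ := hq.trans_le (min_le_left _ _)
  have hq2 : ‖q - p‖ < ε * ρ ^ 2 / 4 := hq.trans_le (min_le_right _ _)
  refine (key q (by rwa [mem_ball, dist_eq_norm])).trans_lt ?_
  calc 2 / ρ ^ 2 * ‖q - p‖ ≤ 2 / ρ ^ 2 * (ε * ρ ^ 2 / 4) := by gcongr
    _ = ε / 2 := by field_simp; norm_num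
    _ < ε := by linarith

lemma hasStrictFDerivAt_of_holo {f : E → F} {U : Set E} (hU : IsOpen U)
    (hf : DifferentiableOn ℂ f U) {p : E} (hp : p ∈ U) :
    HasStrictFDerivAt f (fderiv ℂ f p) p := by
  refine hasStrictFDerivAt_of_hasFDerivAt_of_continuousAt ?_
    ((continuousOn_fderiv hU hf).continuousAt (hU.mem_nhds hp))
  filter_upwards [hU.mem_nhds hp] with y hy
  exact ((hf y hy).differentiableAt (hU.mem_nhds hy)).hasFDerivAt

/-- Iterated directional derivatives of holomorphic maps are holomorphic. -/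
lemma differentiableOn_iteratedDeriv_dir [CompleteSpace F] {f : E → F} {U : Set E} (hU : IsOpen U)
    (hf : DifferentiableOn ℂ f U) (v : E) (n : ℕ) :
    DifferentiableOn ℂ (fun p => iteratedDeriv n (fun ζ : ℂ => f (p + ζ • v)) 0) U := by
  intro p hp
  refine DifferentiableAt.differentiableWithinAt ?_
  obtain ⟨ρ, hρ, hsub, hb, hd⟩ := exists_ball_bounds hU hf hp
  -- radius of the circle
  obtain ⟨s, hs, hsv⟩ : ∃ s : ℝ, 0 < s ∧ s * ‖v‖ ≤ ρ / 2 := by
    refine ⟨ρ / (2 * (‖v‖ + 1)), by positivity, ?_⟩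
    rw [div_mul_eq_mul_div, div_le_div_iff₀ (by positivity) (by norm_num)]
    nlinarith [norm_nonneg v]
  have hmem : ∀ q ∈ ball p ρ, ∀ ζ ∈ closedBall (0 : ℂ) s, q + ζ • v ∈ ball p (2 * ρ) := by
    intro q hq ζ hζ
    rw [mem_ball, dist_eq_norm] at hq ⊢
    rw [mem_closedBall, dist_zero_right] at hζ
    calc ‖q + ζ • v - p‖ = ‖(q - p) + ζ • v‖ := by congr 1; abel
      _ ≤ ‖q - p‖ + ‖ζ • v‖ := norm_add_le _ _
      _ ≤ ‖q - p‖ + s * ‖v‖ := by rw [norm_smul]; gcongr
      _ < 2 * ρ := by linarith
  have hdiff : ∀ x ∈ ball p (2 * ρ), DifferentiableAt ℂ f x := by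
    intro z hz
    exact (hf z (hsub (ball_subset_ball (by linarith) hz))).differentiableAt
      (hU.mem_nhds (hsub (ball_subset_ball (by linarith) hz)))
  have hformula : ∀ q ∈ ball p ρ, iteratedDeriv n (fun ζ : ℂ => f (q + ζ • v)) 0 =
      (2 * Real.pi * Complex.I / n.factorial : ℂ)⁻¹ •
        ∮ z in C(0, s), (1 / (z - 0) ^ (n + 1)) • f (q + z • v) := by
    intro q hq
    have h1 : DifferentiableOn ℂ (fun ζ : ℂ => f (q + ζ • v)) (closedBall 0 s) := by
      intro ζ hζ
      refine DifferentiableAt.differentiableWithinAt ?_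
      exact (hdiff _ (hmem q hq ζ hζ)).comp ζ (by fun_prop)
    rw [h1.circleIntegral_one_div_sub_center_pow_smul hs n, smul_smul, inv_mul_cancel₀, one_smul]
    refine div_ne_zero Complex.two_pi_I_ne_zero ?_
    exact_mod_cast n.factorial_ne_zero
  have hball : ball p ρ ∈ 𝓝 p := ball_mem_nhds p hρ
  suffices hsuff : DifferentiableAt ℂ (fun q => ∮ z in C(0, s), (1 / (z - 0) ^ (n + 1)) •
      f (q + z • v)) p by
    refine (hsuff.const_smul ((2 * Real.pi * Complex.I / n.factorial : ℂ)⁻¹)).congr_of_eventuallyEq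
      ?_
    filter_upwards [hball] with q hq
    exact hformula q hq
  unfold circleIntegral
  have hcirc : ∀ θ : ℝ, circleMap 0 s θ ∈ closedBall (0 : ℂ) s := fun θ =>
    circleMap_mem_closedBall 0 hs.le θ
  have hcne : ∀ θ : ℝ, circleMap 0 s θ ≠ 0 := fun θ => by
    have := circleMap_ne_center (c := (0 : ℂ)) hs.ne' (θ := θ)
    exact this
  set a : ℝ → ℂ := fun θ => deriv (circleMap 0 s) θ * (1 / (circleMap 0 s θ - 0) ^ (n + 1)) with ha
  have hacont : Continuous a := by
    have h1 : Continuous (fun θ => deriv (circleMap 0 s) θ) := by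
      simp only [deriv_circleMap]
      exact (continuous_circleMap 0 s).mul continuous_const
    refine h1.mul (continuous_const.div (((continuous_circleMap 0 s).sub continuous_const).pow _) ?_)
    intro θ
    rw [sub_zero]
    exact pow_ne_zero _ (hcne θ)
  have hcontf : ∀ q ∈ ball p ρ, Continuous (fun θ : ℝ => f (q + circleMap 0 s θ • v)) := by
    intro q hq
    rw [continuous_iff_continuousAt]
    intro θ
    have h1 : ContinuousAt f (q + circleMap 0 s θ • v) :=
      (hdiff _ (hmem q hq _ (hcirc θ))).continuousAt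
    exact ContinuousAt.comp (f := fun θ : ℝ => q + circleMap 0 s θ • v) h1
      (continuous_const.add ((continuous_circleMap 0 s).smul continuous_const)).continuousAt
  have hcontf' : Continuous (fun θ : ℝ => fderiv ℂ f (p + circleMap 0 s θ • v)) := by
    rw [continuous_iff_continuousAt]
    intro θ
    have h0 := hmem p (mem_ball_self hρ) _ (hcirc θ)
    have h1 : ContinuousAt (fderiv ℂ f) (p + circleMap 0 s θ • v) :=
      (continuousOn_fderiv hU hf).continuousAt
        (hU.mem_nhds (hsub (ball_subset_ball (by linarith) h0)))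
    exact ContinuousAt.comp (f := fun θ : ℝ => p + circleMap 0 s θ • v) h1
      (continuous_const.add ((continuous_circleMap 0 s).smul continuous_const)).continuousAt
  have hmain := intervalIntegral.hasFDerivAt_integral_of_dominated_of_fderiv_le (𝕜 := ℂ)
    (μ := MeasureTheory.volume) (a := 0) (b := 2 * Real.pi)
    (F := fun q θ => deriv (circleMap 0 s) θ • (1 / (circleMap 0 s θ - 0) ^ (n + 1)) •
      f (q + circleMap 0 s θ • v))
    (F' := fun q θ => a θ • fderiv ℂ f (q + circleMap 0 s θ • v))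
    (bound := fun θ => ‖a θ‖ * (1 / ρ)) (x₀ := p) hball ?_ ?_ ?_ ?_ ?_ ?_
  · exact hmain.differentiableAt
  · filter_upwards [hball] with q hq
    have : Continuous (fun θ : ℝ => deriv (circleMap 0 s) θ • (1 / (circleMap 0 s θ - 0) ^ (n + 1)) •
      f (q + circleMap 0 s θ • v)) := by
      have e : (fun θ : ℝ => deriv (circleMap 0 s) θ • (1 / (circleMap 0 s θ - 0) ^ (n + 1)) •
        f (q + circleMap 0 s θ • v)) = fun θ => a θ • f (q + circleMap 0 s θ • v) := by
        funext θ
        rw [smul_smul]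
      rw [e]
      exact hacont.smul (hcontf q hq)
    exact this.aestronglyMeasurable
  · have : Continuous (fun θ : ℝ => deriv (circleMap 0 s) θ • (1 / (circleMap 0 s θ - 0) ^ (n + 1)) •
      f (p + circleMap 0 s θ • v)) := by
      have e : (fun θ : ℝ => deriv (circleMap 0 s) θ • (1 / (circleMap 0 s θ - 0) ^ (n + 1)) •
        f (p + circleMap 0 s θ • v)) = fun θ => a θ • f (p + circleMap 0 s θ • v) := by
        funext θ
        rw [smul_smul]
      rw [e]
      exact hacont.smul (hcontf p (mem_ball_self hρ))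
    exact this.intervalIntegrable _ _
  · exact (hacont.smul hcontf').aestronglyMeasurable
  · refine Eventually.of_forall fun θ _ q hq => ?_
    rw [norm_smul]
    exact mul_le_mul_of_nonneg_left (hd _ (hmem q hq _ (hcirc θ))) (norm_nonneg _)
  · exact (hacont.norm.mul continuous_const).intervalIntegrable _ _
  · refine Eventually.of_forall fun θ _ q hq => ?_
    have h1 : HasFDerivAt (fun q => f (q + circleMap 0 s θ • v))
        (fderiv ℂ f (q + circleMap 0 s θ • v)) q := by
      simpa using! (hdiff _ (hmem q hq _ (hcirc θ))).hasFDerivAt.comp q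
        ((hasFDerivAt_id q).add_const (circleMap 0 s θ • v))
    have h2 := h1.const_smul (a θ)
    refine h2.congr_of_eventuallyEq (Eventually.of_forall fun x => ?_)
    simp only [ha, smul_smul, Pi.smul_apply]

/-- Directional derivatives of holomorphic maps are holomorphic. -/
lemma differentiableOn_fderiv_apply [CompleteSpace F] {f : E → F} {U : Set E} (hU : IsOpen U)
    (hf : DifferentiableOn ℂ f U) (v : E) :
    DifferentiableOn ℂ (fun p => fderiv ℂ f p v) U := by
  refine (differentiableOn_iteratedDeriv_dir hU hf v 1).congr fun p hp => ?_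
  rw [iteratedDeriv_one]
  have h1 : HasFDerivAt f (fderiv ℂ f p) (p + (0 : ℂ) • v) := by
    rw [zero_smul, add_zero]
    exact ((hf p hp).differentiableAt (hU.mem_nhds hp)).hasFDerivAt
  have h2 : HasDerivAt (fun ζ : ℂ => p + ζ • v) v 0 := by
    simpa using! ((hasDerivAt_id (0 : ℂ)).smul_const v).const_add p
  exact (h1.comp_hasDerivAt (0 : ℂ) h2).deriv.symm

end Pool.Agent.Squeeze
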