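import Mathlib

/-! An injective holomorphic function of one variable has nonzero derivative. -/

set_option autoImplicit false
open Set Metric Filter Topology

namespace Pool.Agent.Squeeze

/-- If `G` has nonzero strict derivative and `f = f a + G ^ n` near `a` with `n ≥ 2`, then `f`
is not injective on a neighbourhood of `a`. -/
lemma not_injOn_of_pow {f G : ℂ → ℂ} {a G' : ℂ} {n : ℕ} (hn : 2 ≤ n)
    (hG : HasStrictDerivAt G G' a) (hG' : G' ≠ 0) (hGa : G a = 0) {V : Set ℂ} (hV : V ∈ 𝓝 a)
    (hf : ∀ z ∈ V, f z = f a + G z ^ n) : ¬ InjOn f V := by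
  intro hinj
  have himg : G '' V ∈ 𝓝 (0 : ℂ) := by
    have := hG.map_nhds_eq hG'
    rw [hGa] at this
    rw [← this]
    exact image_mem_map hV
  have hn0 : n ≠ 0 := by omega
  have hprim := Complex.isPrimitiveRoot_exp n hn0
  set ζ := Complex.exp (2 * Real.pi * Complex.I / n) with hζ
  have hζne : ζ ≠ 1 := hprim.ne_one (by omega)
  have hζpow : ζ ^ n = 1 := hprim.pow_eq_one
  have himg2 : ∀ᶠ w in 𝓝 (0 : ℂ), ζ * w ∈ G '' V := by
    have hc : Tendsto (fun w : ℂ => ζ * w) (𝓝 0) (𝓝 0) := by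
      have : Continuous (fun w : ℂ => ζ * w) := by fun_prop
      simpa using this.tendsto 0
    exact hc.eventually himg
  have hev : ∀ᶠ w in 𝓝 (0 : ℂ), w ∈ G '' V ∧ ζ * w ∈ G '' V :=
    Filter.Eventually.and himg himg2
  have hfreq : ∃ᶠ w in 𝓝[≠] (0 : ℂ), (w ∈ G '' V ∧ ζ * w ∈ G '' V) ∧ w ≠ 0 := by
    have h1 : ∀ᶠ w in 𝓝[≠] (0 : ℂ), (w ∈ G '' V ∧ ζ * w ∈ G '' V) ∧ w ≠ 0 :=
      (hev.filter_mono nhdsWithin_le_nhds).and self_mem_nhdsWithin
    exact h1.frequently
  obtain ⟨w, ⟨⟨z1, hz1, hz1w⟩, ⟨z2, hz2, hz2w⟩⟩, hw⟩ := hfreq.exists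
  have heq : f z1 = f z2 := by
    rw [hf z1 hz1, hf z2 hz2, hz1w, hz2w, mul_pow, hζpow, one_mul]
  have hz : z1 = z2 := hinj hz1 hz2 heq
  rw [← hz, hz1w] at hz2w
  apply hζne
  have : (ζ - 1) * w = 0 := by linear_combination -hz2w
  rcases mul_eq_zero.1 this with h | h
  · exact sub_eq_zero.1 h
  · exact absurd h hw

lemma deriv_ne_zero_of_injOn {f : ℂ → ℂ} {a : ℂ} {V : Set ℂ} (hV : V ∈ 𝓝 a)
    (hf : AnalyticAt ℂ f a) (hinj : InjOn f V) : deriv f a ≠ 0 := by
  intro hd
  have hsub : AnalyticAt ℂ (fun z => f z - f a) a := hf.sub analyticAt_const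
  by_cases hev : ∀ᶠ z in 𝓝 a, f z - f a = 0
  · have h1 : ∀ᶠ z in 𝓝[≠] a, z ∈ V ∧ f z - f a = 0 ∧ z ≠ a :=
      ((Filter.Eventually.filter_mono nhdsWithin_le_nhds hV).and
        ((hev.filter_mono nhdsWithin_le_nhds).and self_mem_nhdsWithin))
    obtain ⟨z, hzV, hz, hza⟩ := h1.frequently.exists
    exact hza (hinj hzV (mem_of_mem_nhds hV) (sub_eq_zero.1 hz))
  · obtain ⟨n, g, hg, hga, hfg⟩ := hsub.exists_eventuallyEq_pow_smul_nonzero_iff.2 hev
    have hn : 2 ≤ n := by
      by_contra hlt
      have hn01 : n = 0 ∨ n = 1 := by omega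
      rcases hn01 with rfl | rfl
      · have := hfg.self_of_nhds
        simp at this
        exact hga this.symm
      · have h1 : HasDerivAt (fun z => (z - a) ^ 1 • g z) (g a) a := by
          have e1 : HasDerivAt (fun z : ℂ => (z - a) ^ 1) 1 a := by
            simpa using (hasDerivAt_id a).sub_const a
          have e2 := e1.smul hg.differentiableAt.hasDerivAt
          simpa using! e2
        have h2 : HasDerivAt (fun z => f z - f a) (g a) a := h1.congr_of_eventuallyEq hfg
        have h3 : HasDerivAt (fun z => f z - f a) (deriv f a) a :=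
          (hf.differentiableAt.hasDerivAt).sub_const _
        rw [hd] at h3
        exact hga (h2.unique h3)
    have hn0 : n ≠ 0 := by omega
    -- n-th root
    set b : ℂ := (g a) ^ ((n : ℂ)⁻¹) with hb
    have hbn : b ^ n = g a := Complex.cpow_nat_inv_pow _ hn0
    have hbne : b ≠ 0 := by
      intro h0
      rw [h0, zero_pow hn0] at hbn
      exact hga hbn.symm
    set k : ℂ → ℂ := fun z => (g z / g a) ^ ((n : ℂ)⁻¹) with hk
    have hkan : AnalyticAt ℂ k a := by
      refine AnalyticAt.cpow (hg.div analyticAt_const hga) analyticAt_const ?_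
      rw [div_self hga]
      exact Complex.one_mem_slitPlane
    have hka : k a = 1 := by
      simp only [hk]
      rw [div_self hga, Complex.one_cpow]
    set G : ℂ → ℂ := fun z => (z - a) * (b * k z) with hGdef
    have hGan : AnalyticAt ℂ G a :=
      (analyticAt_id.sub analyticAt_const).mul (analyticAt_const.mul hkan)
    have hGd : HasDerivAt G b a := by
      have e1 : HasDerivAt (fun z : ℂ => (z - a)) 1 a := (hasDerivAt_id a).sub_const a
      have e2 : HasDerivAt (fun z => b * k z) (b * deriv k a) a :=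
        (hkan.differentiableAt.hasDerivAt).const_mul b
      have e3 := e1.mul e2
      simpa [hka] using! e3
    have hGs : HasStrictDerivAt G b a := by
      have := hGan.hasStrictDerivAt
      rwa [hGd.deriv] at this
    have hGa : G a = 0 := by simp [hGdef]
    have hpow : ∀ᶠ z in 𝓝 a, f z = f a + G z ^ n := by
      filter_upwards [hfg] with z hz
      have h1 : G z ^ n = (z - a) ^ n * g z := by
        simp only [hGdef, hk]
        rw [mul_pow, mul_pow, hbn, Complex.cpow_nat_inv_pow _ hn0]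
        field_simp
      rw [h1, ← smul_eq_mul, ← hz]
      ring
    have hV' : V ∩ {z | f z = f a + G z ^ n} ∈ 𝓝 a := inter_mem hV hpow
    exact not_injOn_of_pow hn hGs hbne hGa hV' (fun z hz => hz.2)
      (hinj.mono inter_subset_left)

end Pool.Agent.Squeeze
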