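import Mathlib
import Pool.Agent.Helper23_Squeeze.Holo
import Pool.Agent.Helper23_Squeeze.OneVar

/-! Injective holomorphic maps of two variables are locally biholomorphic. -/

set_option autoImplicit false
open Set Metric Filter Topology

namespace Pool.Agent.Squeeze

/-- First partial derivative. -/
noncomputable def d1 (g : ℂ × ℂ → ℂ) (p : ℂ × ℂ) : ℂ := fderiv ℂ g p (1, 0)

/-- Second partial derivative. -/
noncomputable def d2 (g : ℂ × ℂ → ℂ) (p : ℂ × ℂ) : ℂ := fderiv ℂ g p (0, 1)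

lemma fderiv_eq_d (g : ℂ × ℂ → ℂ) (p v : ℂ × ℂ) :
    fderiv ℂ g p v = v.1 * d1 g p + v.2 * d2 g p := by
  have : v = v.1 • ((1 : ℂ), (0 : ℂ)) + v.2 • ((0 : ℂ), (1 : ℂ)) := by
    ext <;> simp
  conv_lhs => rw [this]
  rw [map_add, map_smul, map_smul]
  rfl

lemma contDiffAt_one_of_holo {E F : Type*} [NormedAddCommGroup E] [NormedSpace ℂ E]
    [NormedAddCommGroup F] [NormedSpace ℂ F] {g : E → F} {U : Set E} (hU : IsOpen U)
    (hg : DifferentiableOn ℂ g U) {a : E} (ha : a ∈ U) : ContDiffAt ℂ 1 g a := by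
  refine contDiffAt_one_iff.2 ⟨fderiv ℂ g, U, hU.mem_nhds ha, continuousOn_fderiv hU hg, ?_⟩
  intro x hx
  exact ((hg x hx).differentiableAt (hU.mem_nhds hx)).hasFDerivAt

/-- Data of an implicit function for a level set of a holomorphic function. -/
lemma exists_implicit {g : ℂ × ℂ → ℂ} {U : Set (ℂ × ℂ)} (hU : IsOpen U)
    (hg : DifferentiableOn ℂ g U) {a : ℂ × ℂ} (ha : a ∈ U) (h2 : d2 g a ≠ 0) :
    ∃ ψ : ℂ → ℂ, AnalyticAt ℂ ψ a.1 ∧ ψ a.1 = a.2 ∧
      (∀ᶠ x in 𝓝 a.1, g (x, ψ x) = g a) ∧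
      (∀ᶠ v in 𝓝 a, g v = g a ↔ ψ v.1 = v.2) := by
  have hs := contDiffAt_one_of_holo hU hg ha
  have hinv : (fderiv ℂ g a ∘L .inr ℂ ℂ ℂ).IsInvertible := by
    refine ⟨ContinuousLinearEquiv.unitsEquivAut ℂ (Units.mk0 (d2 g a) h2), ?_⟩
    ext
    simp [d2]
  refine ⟨hs.implicitFunction one_ne_zero hinv, ?_, ?_, ?_, ?_⟩
  · rw [Complex.analyticAt_iff_eventually_differentiableAt]
    have h1 := hs.contDiffAt_implicitFunction one_ne_zero hinv
    filter_upwards [h1.eventually (by simp)] with x hx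
    exact hx.differentiableAt one_ne_zero
  · exact hs.implicitFunction_apply_self one_ne_zero hinv
  · exact hs.eventually_apply_implicitFunction one_ne_zero hinv
  · exact hs.eventually_apply_eq_iff_implicitFunction one_ne_zero hinv

/-- If `(g, h)` is injective and `d2 g a ≠ 0` then the Jacobian is nonzero at `a`. -/
lemma jac_ne_zero_of_d2 {g h : ℂ × ℂ → ℂ} {U : Set (ℂ × ℂ)} (hU : IsOpen U)
    (hg : DifferentiableOn ℂ g U) (hh : DifferentiableOn ℂ h U)
    (hinj : ∀ x ∈ U, ∀ y ∈ U, g x = g y → h x = h y → x = y)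
    {a : ℂ × ℂ} (ha : a ∈ U) (h2 : d2 g a ≠ 0) :
    d1 g a * d2 h a - d2 g a * d1 h a ≠ 0 := by
  obtain ⟨ψ, hψ, hψa, hev, -⟩ := exists_implicit hU hg ha h2
  set c : ℂ → ℂ × ℂ := fun x => (x, ψ x) with hc
  have hca : c a.1 = a := by simp [hc, hψa]
  have hcan : AnalyticAt ℂ c a.1 := analyticAt_id.prod hψ
  have hcU : ∀ᶠ x in 𝓝 a.1, c x ∈ U := by
    have : Tendsto c (𝓝 a.1) (𝓝 a) := by
      have := hcan.continuousAt.tendsto
      rwa [hca] at this
    exact this.eventually (hU.mem_nhds ha)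
  have hdc : HasDerivAt c (1, deriv ψ a.1) a.1 :=
    (hasDerivAt_id a.1).prodMk hψ.differentiableAt.hasDerivAt
  have hga : HasFDerivAt g (fderiv ℂ g a) (c a.1) := by
    rw [hca]
    exact ((hg a ha).differentiableAt (hU.mem_nhds ha)).hasFDerivAt
  have hha : HasFDerivAt h (fderiv ℂ h a) (c a.1) := by
    rw [hca]
    exact ((hh a ha).differentiableAt (hU.mem_nhds ha)).hasFDerivAt
  have e1 : HasDerivAt (fun x => g (c x)) (fderiv ℂ g a (1, deriv ψ a.1)) a.1 :=
    hga.comp_hasDerivAt a.1 hdc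
  have e2 : HasDerivAt (fun x => h (c x)) (fderiv ℂ h a (1, deriv ψ a.1)) a.1 :=
    hha.comp_hasDerivAt a.1 hdc
  have e3 : HasDerivAt (fun x => g (c x)) 0 a.1 :=
    (hasDerivAt_const a.1 (g a)).congr_of_eventuallyEq hev
  have e4 := e1.unique e3
  rw [fderiv_eq_d] at e4
  rw [fderiv_eq_d] at e2
  simp only [one_mul] at e4 e2
  -- analyticity and injectivity of `h ∘ c`
  have hk : AnalyticAt ℂ (fun x => h (c x)) a.1 := by
    rw [Complex.analyticAt_iff_eventually_differentiableAt]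
    have h1 := (Complex.analyticAt_iff_eventually_differentiableAt.1 hψ)
    filter_upwards [hcU, h1] with x hx hx1
    exact ((hh _ hx).differentiableAt (hU.mem_nhds hx)).comp x
      (differentiableAt_id.prodMk hx1)
  have hV : {x | c x ∈ U ∧ g (c x) = g a} ∈ 𝓝 a.1 := hcU.and hev
  have hinjk : InjOn (fun x => h (c x)) {x | c x ∈ U ∧ g (c x) = g a} := by
    intro x hx y hy hxy
    have := hinj _ hx.1 _ hy.1 (hx.2.trans hy.2.symm) hxy
    exact congrArg Prod.fst this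
  have hne := deriv_ne_zero_of_injOn hV hk hinjk
  rw [e2.deriv] at hne
  intro h0
  apply hne
  have : d2 g a * (d1 h a + deriv ψ a.1 * d2 h a) = 0 := by
    linear_combination (d2 h a) * e4 - h0
  rcases mul_eq_zero.1 this with h | h
  · exact absurd h h2
  · exact h

/-- The Jacobian determinant. -/
noncomputable def jac (g h : ℂ × ℂ → ℂ) (p : ℂ × ℂ) : ℂ := d1 g p * d2 h p - d2 g p * d1 h p

lemma d2_comp_swap {g : ℂ × ℂ → ℂ} {a : ℂ × ℂ} (hg : DifferentiableAt ℂ g a) :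
    d2 (fun p => g p.swap) a.swap = d1 g a ∧ d1 (fun p => g p.swap) a.swap = d2 g a := by
  have h1 : HasFDerivAt g (fderiv ℂ g a) ((ContinuousLinearEquiv.prodComm ℂ ℂ ℂ) a.swap) := by
    simpa using hg.hasFDerivAt
  have h2 := h1.comp a.swap (ContinuousLinearEquiv.prodComm ℂ ℂ ℂ).hasFDerivAt
  have h3 : HasFDerivAt (fun p : ℂ × ℂ => g p.swap)
      ((fderiv ℂ g a).comp ((ContinuousLinearEquiv.prodComm ℂ ℂ ℂ) : ℂ × ℂ →L[ℂ] ℂ × ℂ)) a.swap := h2
  unfold d1 d2
  rw [h3.fderiv]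
  constructor <;> simp

/-- At a zero of the Jacobian, all partial derivatives vanish. -/
lemma d_eq_zero_of_jac {g h : ℂ × ℂ → ℂ} {U : Set (ℂ × ℂ)} (hU : IsOpen U)
    (hg : DifferentiableOn ℂ g U) (hh : DifferentiableOn ℂ h U)
    (hinj : ∀ x ∈ U, ∀ y ∈ U, g x = g y → h x = h y → x = y)
    {a : ℂ × ℂ} (ha : a ∈ U) (hJ : jac g h a = 0) :
    d1 g a = 0 ∧ d2 g a = 0 ∧ d1 h a = 0 ∧ d2 h a = 0 := by
  have hga : DifferentiableAt ℂ g a := (hg a ha).differentiableAt (hU.mem_nhds ha)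
  have hha : DifferentiableAt ℂ h a := (hh a ha).differentiableAt (hU.mem_nhds ha)
  have hU' : IsOpen (Prod.swap ⁻¹' U) := hU.preimage continuous_swap
  have hswap : Differentiable ℂ (Prod.swap : ℂ × ℂ → ℂ × ℂ) :=
    (ContinuousLinearEquiv.prodComm ℂ ℂ ℂ).differentiable
  have hg' : DifferentiableOn ℂ (fun p : ℂ × ℂ => g p.swap) (Prod.swap ⁻¹' U) := by
    intro p hp
    exact ((((hg p.swap hp).differentiableAt (hU.mem_nhds hp)).comp p
      (hswap p))).differentiableWithinAt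
  have hh' : DifferentiableOn ℂ (fun p : ℂ × ℂ => h p.swap) (Prod.swap ⁻¹' U) := by
    intro p hp
    exact ((((hh p.swap hp).differentiableAt (hU.mem_nhds hp)).comp p
      (hswap p))).differentiableWithinAt
  have hinj' : ∀ x ∈ (Prod.swap ⁻¹' U : Set (ℂ × ℂ)), ∀ y ∈ (Prod.swap ⁻¹' U : Set (ℂ × ℂ)),
      (fun p : ℂ × ℂ => g p.swap) x = (fun p : ℂ × ℂ => g p.swap) y →
      (fun p : ℂ × ℂ => h p.swap) x = (fun p : ℂ × ℂ => h p.swap) y → x = y := by
    intro x hx y hy h1 h2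
    exact Prod.swap_injective (hinj _ hx _ hy h1 h2)
  have ha' : a.swap ∈ (Prod.swap ⁻¹' U : Set (ℂ × ℂ)) := by simpa using ha
  obtain ⟨eg2, eg1⟩ := d2_comp_swap hga
  obtain ⟨eh2, eh1⟩ := d2_comp_swap hha
  unfold jac at hJ
  refine ⟨?_, ?_, ?_, ?_⟩
  · by_contra hne
    have := jac_ne_zero_of_d2 hU' hg' hh' hinj' ha' (by rwa [eg2])
    rw [eg1, eg2, eh1, eh2] at this
    apply this
    linear_combination -hJ
  · by_contra hne
    exact jac_ne_zero_of_d2 hU hg hh hinj ha hne hJ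
  · by_contra hne
    have := jac_ne_zero_of_d2 hU' hh' hg' (fun x hx y hy h1 h2 => hinj' x hx y hy h2 h1) ha'
      (by rwa [eh2])
    rw [eg1, eg2, eh1, eh2] at this
    apply this
    linear_combination hJ
  · by_contra hne
    have := jac_ne_zero_of_d2 hU hh hg (fun x hx y hy h1 h2 => hinj x hx y hy h2 h1) ha hne
    apply this
    linear_combination -hJ

/-- A holomorphic curve of the form `x ↦ c x` inside the zero set of the Jacobian is constant. -/
lemma curve_in_zeros {g h : ℂ × ℂ → ℂ} {U : Set (ℂ × ℂ)} (hU : IsOpen U)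
    (hg : DifferentiableOn ℂ g U) (hh : DifferentiableOn ℂ h U)
    (hinj : ∀ x ∈ U, ∀ y ∈ U, g x = g y → h x = h y → x = y)
    {c : ℂ → ℂ × ℂ} {x₀ : ℂ} (hc : ∀ᶠ x in 𝓝 x₀, DifferentiableAt ℂ c x ∧ c x ∈ U ∧
      jac g h (c x) = 0) : ∀ᶠ x in 𝓝 x₀, c x = c x₀ := by
  obtain ⟨ε, hε, hb⟩ := Metric.eventually_nhds_iff_ball.1 hc
  have key : ∀ k : ℂ × ℂ → ℂ, DifferentiableOn ℂ k U → (∀ a ∈ U, jac g h a = 0 →
      d1 k a = 0 ∧ d2 k a = 0) → ∀ x ∈ ball x₀ ε, k (c x) = k (c x₀) := by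
    intro k hk hz x hx
    have hder : ∀ y ∈ ball x₀ ε, HasDerivAt (fun y => k (c y)) 0 y := by
      intro y hy
      obtain ⟨h1, h2, h3⟩ := hb y hy
      have e1 := (((hk _ h2).differentiableAt (hU.mem_nhds h2)).hasFDerivAt).comp_hasDerivAt y
        h1.hasDerivAt
      obtain ⟨z1, z2⟩ := hz _ h2 h3
      rw [fderiv_eq_d, z1, z2, mul_zero, mul_zero, add_zero] at e1
      exact e1
    refine (convex_ball x₀ ε).is_const_of_fderivWithin_eq_zero (𝕜 := ℂ) (f := fun y => k (c y))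
      ?_ ?_ hx (mem_ball_self hε)
    · intro y hy
      exact (hder y hy).differentiableAt.differentiableWithinAt
    · intro y hy
      rw [fderivWithin_of_isOpen isOpen_ball hy]
      have := (hder y hy).hasFDerivAt.fderiv
      rw [this]
      ext
      simp
  refine Metric.eventually_nhds_iff_ball.2 ⟨ε, hε, fun x hx => ?_⟩
  refine hinj _ (hb x hx).2.1 _ (hb x₀ (mem_ball_self hε)).2.1 ?_ ?_
  · refine key g hg (fun a ha hJ => ?_) x hx
    obtain ⟨e1, e2, e3, e4⟩ := d_eq_zero_of_jac hU hg hh hinj ha hJ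
    exact ⟨e1, e2⟩
  · refine key h hh (fun a ha hJ => ?_) x hx
    obtain ⟨e1, e2, e3, e4⟩ := d_eq_zero_of_jac hU hg hh hinj ha hJ
    exact ⟨e3, e4⟩

/-- A zero of a holomorphic function of two variables which is not identically zero along the
second axis through it, is not isolated. -/
lemma not_isolated_zero {J : ℂ × ℂ → ℂ} {U : Set (ℂ × ℂ)} (hU : IsOpen U)
    (hJ : DifferentiableOn ℂ J U) {b : ℂ × ℂ} (hb : b ∈ U) (hb0 : J b = 0)
    (hiso : ∀ᶠ v in 𝓝 b, J v = 0 → v = b) : False := by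
  obtain ⟨ε, hε, hball⟩ := Metric.eventually_nhds_iff_ball.1
    (Filter.Eventually.and (hU.mem_nhds hb) hiso)
  -- radius of the circle
  set δ := ε / 2 with hδ
  have hδpos : 0 < δ := by positivity
  have hmem : ∀ x w : ℂ, dist x b.1 < ε → dist w b.2 < ε → (x, w) ∈ ball b ε := by
    intro x w h1 h2
    rw [mem_ball, Prod.dist_eq, max_lt_iff]
    exact ⟨h1, h2⟩
  have hcont : ∀ v ∈ ball b ε, ContinuousAt J v := fun v hv =>
    (hJ v (hball v hv).1).differentiableAt (hU.mem_nhds (hball v hv).1) |>.continuousAt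
  have hsph : IsCompact (sphere b.2 δ) := isCompact_sphere _ _
  -- positive lower bound on the sphere
  obtain ⟨m, hm, hmb⟩ : ∃ m > 0, ∀ w ∈ sphere b.2 δ, m ≤ ‖J (b.1, w)‖ := by
    have hne : (sphere b.2 δ).Nonempty := NormedSpace.sphere_nonempty.2 hδpos.le
    have hcs : ContinuousOn (fun w => ‖J (b.1, w)‖) (sphere b.2 δ) := by
      intro w hw
      have hw' : (b.1, w) ∈ ball b ε := by
        refine hmem _ _ (by simpa using hε) ?_
        rw [mem_sphere.1 hw]
        linarith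
      exact ((hcont _ hw').comp (f := fun w : ℂ => (b.1, w))
        (by fun_prop)).norm.continuousWithinAt
    obtain ⟨w0, hw0, hmin⟩ := hsph.exists_isMinOn hne hcs
    refine ⟨‖J (b.1, w0)‖, ?_, fun w hw => hmin hw⟩
    rw [gt_iff_lt, norm_pos_iff]
    intro h0
    have hw' : (b.1, w0) ∈ ball b ε := by
      refine hmem _ _ (by simpa using hε) ?_
      rw [mem_sphere.1 hw0]
      linarith
    have := (hball _ hw').2 h0
    have h2 : w0 = b.2 := congrArg Prod.snd this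
    rw [h2] at hw0
    rw [mem_sphere, dist_self] at hw0
    linarith
  -- nearby slices are bounded below on the sphere
  have hev1 : ∀ᶠ x in 𝓝 b.1, ∀ w ∈ sphere b.2 δ, m / 2 < ‖J (x, w)‖ := by
    refine hsph.eventually_forall_of_forall_eventually fun w hw => ?_
    have hw' : (b.1, w) ∈ ball b ε := by
      refine hmem _ _ (by simpa using hε) ?_
      rw [mem_sphere.1 hw]
      linarith
    have h1 : ContinuousAt (fun z : ℂ × ℂ => ‖J z‖) (b.1, w) := (hcont _ hw').norm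
    exact h1.eventually (lt_mem_nhds (by linarith [hmb w hw] : m / 2 < ‖J (b.1, w)‖))
  have hev2 : ∀ᶠ x in 𝓝 b.1, ‖J (x, b.2)‖ < m / 2 := by
    have h1 : ContinuousAt (fun x : ℂ => ‖J (x, b.2)‖) b.1 :=
      ((hcont b (mem_ball_self hε)).comp (f := fun x : ℂ => (x, b.2)) (by fun_prop)).norm
    refine h1.eventually (gt_mem_nhds ?_)
    show ‖J b‖ < m / 2
    rw [hb0, norm_zero]
    positivity
  have hev3 : ∀ᶠ x in 𝓝 b.1, dist x b.1 < ε := Metric.ball_mem_nhds _ hε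
  have hev4 : ∀ᶠ x in 𝓝[≠] b.1, ((∀ w ∈ sphere b.2 δ, m / 2 < ‖J (x, w)‖) ∧
      ‖J (x, b.2)‖ < m / 2 ∧ dist x b.1 < ε) ∧ x ≠ b.1 :=
    ((hev1.and (hev2.and hev3)).filter_mono nhdsWithin_le_nhds).and self_mem_nhdsWithin
  obtain ⟨x, ⟨hx1, hx2, hx3⟩, hxne⟩ := hev4.frequently.exists
  have hxball : ∀ w ∈ closedBall b.2 δ, (x, w) ∈ ball b ε := by
    intro w hw
    refine hmem _ _ hx3 ?_
    rw [mem_closedBall] at hw
    linarith
  have hnz : ∀ w ∈ closedBall b.2 δ, J (x, w) ≠ 0 := by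
    intro w hw h0
    have := (hball _ (hxball w hw)).2 h0
    exact hxne (congrArg Prod.fst this)
  have hdiff : ∀ w ∈ closedBall b.2 δ, DifferentiableAt ℂ (fun w => (J (x, w))⁻¹) w := by
    intro w hw
    have h1 := (hJ _ (hball _ (hxball w hw)).1).differentiableAt
      (hU.mem_nhds (hball _ (hxball w hw)).1)
    exact (h1.comp (f := fun w : ℂ => (x, w)) w (by fun_prop)).inv (hnz w hw)
  have hmax : ‖(J (x, b.2))⁻¹‖ ≤ 2 / m := by
    refine Complex.norm_le_of_forall_mem_frontier_norm_le (U := ball b.2 δ)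
      (f := fun w => (J (x, w))⁻¹) (z := b.2) isBounded_ball ?_ ?_
      (subset_closure (mem_ball_self hδpos))
    · refine DifferentiableOn.diffContOnCl ?_
      rw [closure_ball _ hδpos.ne']
      intro w hw
      exact (hdiff w hw).differentiableWithinAt
    · intro w hw
      rw [frontier_ball _ hδpos.ne'] at hw
      rw [norm_inv]
      have := hx1 w hw
      rw [inv_le_comm₀ (by linarith) (by positivity), inv_div]
      exact this.le
  have hb2 : 0 < ‖J (x, b.2)‖ := norm_pos_iff.2 (hnz b.2 (mem_closedBall_self hδpos.le))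
  simp only [norm_inv] at hmax
  rw [inv_le_comm₀ hb2 (by positivity), inv_div] at hmax
  linarith

/-- Osgood's theorem in two variables, in coordinates. -/
lemma jac_ne_zero {g h : ℂ × ℂ → ℂ} {U : Set (ℂ × ℂ)} (hU : IsOpen U)
    (hg : DifferentiableOn ℂ g U) (hh : DifferentiableOn ℂ h U)
    (hinj : ∀ x ∈ U, ∀ y ∈ U, g x = g y → h x = h y → x = y)
    {a : ℂ × ℂ} (ha : a ∈ U) : jac g h a ≠ 0 := by
  intro hJa
  set J := jac g h with hJdef
  have hJ : DifferentiableOn ℂ J U := by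
    have e1 := differentiableOn_fderiv_apply hU hg ((1 : ℂ), (0 : ℂ))
    have e2 := differentiableOn_fderiv_apply hU hg ((0 : ℂ), (1 : ℂ))
    have e3 := differentiableOn_fderiv_apply hU hh ((1 : ℂ), (0 : ℂ))
    have e4 := differentiableOn_fderiv_apply hU hh ((0 : ℂ), (1 : ℂ))
    exact (e1.mul e4).sub (e2.mul e3)
  set D : ℕ → ℂ × ℂ → ℂ := fun k p => iteratedDeriv k (fun ζ : ℂ => J (p + ζ • ((0 : ℂ), (1 : ℂ)))) 0
    with hD
  have hDd : ∀ k, DifferentiableOn ℂ (D k) U := fun k =>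
    differentiableOn_iteratedDeriv_dir hU hJ _ k
  have hline : ∀ (p : ℂ × ℂ) (ζ : ℂ), p + ζ • ((0 : ℂ), (1 : ℂ)) = (p.1, p.2 + ζ) := by
    intro p ζ
    ext <;> simp
  -- derivative of `D k` in the second direction
  have hDsucc : ∀ k, ∀ p ∈ U, d2 (D k) p = D (k + 1) p := by
    intro k p hp
    have h1 : HasFDerivAt (D k) (fderiv ℂ (D k) p) (p + (0 : ℂ) • ((0 : ℂ), (1 : ℂ))) := by
      rw [zero_smul, add_zero]
      exact (((hDd k) p hp).differentiableAt (hU.mem_nhds hp)).hasFDerivAt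
    have h2 : HasDerivAt (fun ζ : ℂ => p + ζ • ((0 : ℂ), (1 : ℂ))) ((0 : ℂ), (1 : ℂ)) 0 := by
      simpa using! ((hasDerivAt_id (0 : ℂ)).smul_const ((0 : ℂ), (1 : ℂ))).const_add p
    have h3 := (h1.comp_hasDerivAt (0 : ℂ) h2).deriv
    unfold d2
    rw [← h3]
    simp only [hD]
    rw [iteratedDeriv_succ]
    congr 1
    funext ζ
    simp only [Function.comp]
    have h4 : (fun ζ' : ℂ => J (p + ζ • ((0 : ℂ), (1 : ℂ)) + ζ' • ((0 : ℂ), (1 : ℂ)))) =
        fun ζ' : ℂ => (fun s : ℂ => J (p + s • ((0 : ℂ), (1 : ℂ)))) (ζ' + ζ) := by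
      funext ζ'
      simp only
      congr 1
      rw [add_smul]
      abel
    rw [h4, iteratedDeriv_comp_add_const k (fun s : ℂ => J (p + s • ((0 : ℂ), (1 : ℂ)))) ζ]
    simp
  have hD0 : ∀ p, D 0 p = J p := by
    intro p
    simp only [hD, iteratedDeriv_zero, zero_smul, add_zero]
  -- for each zero, some derivative is nonzero
  have hex : ∀ b ∈ U, J b = 0 → ∃ k, D k b ≠ 0 := by
    intro b hb hb0
    by_contra hall
    push Not at hall
    have h1 : AnalyticAt ℂ (fun ζ : ℂ => J (b + ζ • ((0 : ℂ), (1 : ℂ)))) 0 := by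
      rw [Complex.analyticAt_iff_eventually_differentiableAt]
      have h2 : ContinuousAt (fun ζ : ℂ => b + ζ • ((0 : ℂ), (1 : ℂ))) 0 := by fun_prop
      have h3 : ∀ᶠ ζ : ℂ in 𝓝 0, b + ζ • ((0 : ℂ), (1 : ℂ)) ∈ U := by
        refine h2.eventually ?_
        simpa using hU.mem_nhds hb
      filter_upwards [h3] with ζ hζ
      exact ((hJ _ hζ).differentiableAt (hU.mem_nhds hζ)).comp
        (f := fun ζ : ℂ => b + ζ • ((0 : ℂ), (1 : ℂ))) ζ (by fun_prop)
    have h2 : analyticOrderAt (fun ζ : ℂ => J (b + ζ • ((0 : ℂ), (1 : ℂ)))) 0 = ⊤ := by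
      rw [ENat.eq_top_iff_forall_ge]
      intro n
      exact (natCast_le_analyticOrderAt_iff_iteratedDeriv_eq_zero h1).2 fun i _ => hall i
    rw [analyticOrderAt_eq_top] at h2
    have h3 : ∀ᶠ x in 𝓝 b.2, J (b.1, x) = 0 := by
      have h4 : Tendsto (fun x : ℂ => x - b.2) (𝓝 b.2) (𝓝 0) := by
        have : Continuous (fun x : ℂ => x - b.2) := by fun_prop
        simpa using this.tendsto b.2
      filter_upwards [h4.eventually h2] with x hx
      rw [hline] at hx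
      simpa using hx
    have h5 := curve_in_zeros hU hg hh hinj (c := fun x : ℂ => (b.1, x)) (x₀ := b.2) (by
      have h6 : ∀ᶠ x in 𝓝 b.2, ((b.1, x) : ℂ × ℂ) ∈ U := by
        have : ContinuousAt (fun x : ℂ => ((b.1, x) : ℂ × ℂ)) b.2 := by fun_prop
        exact this.eventually (hU.mem_nhds hb)
      filter_upwards [h3, h6] with x hx hx6
      exact ⟨by fun_prop, hx6, hx⟩)
    have h6 : ∀ᶠ x in 𝓝[≠] b.2, ((b.1, x) : ℂ × ℂ) = (b.1, b.2) ∧ x ≠ b.2 :=
      (h5.filter_mono nhdsWithin_le_nhds).and self_mem_nhdsWithin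
    obtain ⟨x, hx1, hx2⟩ := h6.frequently.exists
    exact hx2 (congrArg Prod.snd hx1)
  -- the minimal order
  have hS : ∃ k, ∃ b ∈ U, J b = 0 ∧ D k b ≠ 0 := by
    obtain ⟨k, hk⟩ := hex a ha hJa
    exact ⟨k, a, ha, hJa, hk⟩
  classical
  obtain ⟨b, hb, hb0, hbk⟩ := Nat.find_spec hS
  set k0 := Nat.find hS with hk0
  have hk0pos : k0 ≠ 0 := by
    intro h0
    rw [h0, hD0] at hbk
    exact hbk hb0
  obtain ⟨k1, hk1⟩ := Nat.exists_eq_succ_of_ne_zero hk0pos
  have hvan : ∀ v ∈ U, J v = 0 → D k1 v = 0 := by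
    intro v hv hv0
    by_contra hne
    have : k0 ≤ k1 := Nat.find_min' hS ⟨v, hv, hv0, hne⟩
    omega
  have hd2 : d2 (D k1) b ≠ 0 := by
    rw [hDsucc k1 b hb]
    rw [hk1] at hbk
    exact hbk
  obtain ⟨ψ, hψ, hψb, hψ1, hψ2⟩ := exists_implicit hU (hDd k1) hb hd2
  have hDb : D k1 b = 0 := hvan b hb hb0
  rw [hDb] at hψ2
  set c : ℂ → ℂ × ℂ := fun x => (x, ψ x) with hc
  have hcb : c b.1 = b := by simp [hc, hψb]
  have hcan : AnalyticAt ℂ c b.1 := analyticAt_id.prod hψ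
  have hcU : ∀ᶠ x in 𝓝 b.1, c x ∈ U := by
    have : Tendsto c (𝓝 b.1) (𝓝 b) := by
      have := hcan.continuousAt.tendsto
      rwa [hcb] at this
    exact this.eventually (hU.mem_nhds hb)
  have hcd : ∀ᶠ x in 𝓝 b.1, DifferentiableAt ℂ c x := by
    have h1 := (Complex.analyticAt_iff_eventually_differentiableAt.1 hψ)
    filter_upwards [h1] with x hx
    exact differentiableAt_id.prodMk hx
  have hj : AnalyticAt ℂ (fun x => J (c x)) b.1 := by
    rw [Complex.analyticAt_iff_eventually_differentiableAt]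
    filter_upwards [hcU, hcd] with x hx hx1
    exact ((hJ _ hx).differentiableAt (hU.mem_nhds hx)).comp x hx1
  rcases hj.eventually_eq_zero_or_eventually_ne_zero with hz | hnz
  · have h5 := curve_in_zeros hU hg hh hinj (c := c) (x₀ := b.1) (by
      filter_upwards [hz, hcU, hcd] with x hx hx6 hx7
      exact ⟨hx7, hx6, hx⟩)
    have h6 : ∀ᶠ x in 𝓝[≠] b.1, c x = c b.1 ∧ x ≠ b.1 :=
      (h5.filter_mono nhdsWithin_le_nhds).and self_mem_nhdsWithin
    obtain ⟨x, hx1, hx2⟩ := h6.frequently.exists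
    exact hx2 (congrArg Prod.fst hx1)
  · rw [eventually_nhdsWithin_iff] at hnz
    refine not_isolated_zero hU hJ hb hb0 ?_
    have h1 : ∀ᶠ v in 𝓝 b, v.1 ∈ ({b.1}ᶜ : Set ℂ) → J (c v.1) ≠ 0 :=
      (continuous_fst.tendsto b).eventually hnz
    filter_upwards [h1, hψ2, hU.mem_nhds hb] with v hv1 hv2 hv3 hv0
    have h2 : ψ v.1 = v.2 := hv2.1 (hvan v hv3 hv0)
    have h3 : c v.1 = v := by simp [hc, h2]
    have h4 : v.1 = b.1 := by
      by_contra hne
      exact hv1 hne (by rw [h3]; exact hv0)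
    refine Prod.ext h4 ?_
    rw [← h2, h4, hψb]

end Pool.Agent.Squeeze
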