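import Mathlib
import Pool.Agent.Helper23_Squeeze.Osgood

/-! The inverse of an injective holomorphic self map of two-dimensional complex space. -/

set_option autoImplicit false
open Set Metric Filter Topology

namespace Pool.Agent.Squeeze

/-- Two-dimensional complex Euclidean space. -/
abbrev E2 := EuclideanSpace ℂ (Fin 2)

/-- The coordinate equivalence. -/
noncomputable def toPair : E2 ≃L[ℂ] ℂ × ℂ :=
  (EuclideanSpace.equiv (Fin 2) ℂ).trans (ContinuousLinearEquiv.finTwoArrow ℂ ℂ)

lemma toPair_apply (x : E2) : toPair x = (x 0, x 1) := rfl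

lemma toPair_symm_apply_zero (p : ℂ × ℂ) : (toPair.symm p) 0 = p.1 := by
  have := toPair_apply (toPair.symm p)
  rw [ContinuousLinearEquiv.apply_symm_apply] at this
  exact (congrArg Prod.fst this).symm

lemma toPair_symm_apply_one (p : ℂ × ℂ) : (toPair.symm p) 1 = p.2 := by
  have := toPair_apply (toPair.symm p)
  rw [ContinuousLinearEquiv.apply_symm_apply] at this
  exact (congrArg Prod.snd this).symm

lemma fderiv_injective_of_injOn {f : E2 → E2} {Ω : Set E2} (hΩ : IsOpen Ω)
    (hf : DifferentiableOn ℂ f Ω) (hinj : InjOn f Ω) {x : E2} (hx : x ∈ Ω) :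
    Function.Injective (fderiv ℂ f x) := by
  rw [injective_iff_map_eq_zero]
  intro v hv
  set U : Set (ℂ × ℂ) := toPair.symm ⁻¹' Ω with hU
  have hUo : IsOpen U := hΩ.preimage toPair.symm.continuous
  set F : ℂ × ℂ → E2 := fun p => f (toPair.symm p) with hF
  have hFd : ∀ p ∈ U, HasFDerivAt F ((fderiv ℂ f (toPair.symm p)).comp
      (toPair.symm : ℂ × ℂ →L[ℂ] E2)) p := by
    intro p hp
    exact (((hf _ hp).differentiableAt (hΩ.mem_nhds hp)).hasFDerivAt).comp p
      toPair.symm.hasFDerivAt
  have hcoord : ∀ i : Fin 2, ∀ p ∈ U, HasFDerivAt (fun p => F p i)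
      ((EuclideanSpace.proj i : E2 →L[ℂ] ℂ).comp ((fderiv ℂ f (toPair.symm p)).comp
      (toPair.symm : ℂ × ℂ →L[ℂ] E2))) p := by
    intro i p hp
    exact (EuclideanSpace.proj i : E2 →L[ℂ] ℂ).hasFDerivAt.comp p (hFd p hp)
  have hxU : toPair x ∈ U := by simpa [hU] using hx
  have hdiff : ∀ i : Fin 2, DifferentiableOn ℂ (fun p => F p i) U := fun i p hp =>
    (hcoord i p hp).differentiableAt.differentiableWithinAt
  have hne := jac_ne_zero hUo (hdiff 0) (hdiff 1) (by
    intro p hp q hq h0 h1
    have : F p = F q := by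
      ext i
      fin_cases i
      · exact h0
      · exact h1
    exact toPair.symm.injective (hinj hp hq this)) hxU
  have e : ∀ i : Fin 2, (toPair v).1 * d1 (fun p => F p i) (toPair x) +
      (toPair v).2 * d2 (fun p => F p i) (toPair x) = 0 := by
    intro i
    rw [← fderiv_eq_d, (hcoord i _ hxU).fderiv]
    simp [hv]
  have e0 := e 0
  have e1 := e 1
  unfold jac at hne
  have h1 : (toPair v).1 = 0 := by
    have : (d1 (fun p => F p 0) (toPair x) * d2 (fun p => F p 1) (toPair x) -
      d2 (fun p => F p 0) (toPair x) * d1 (fun p => F p 1) (toPair x)) * (toPair v).1 = 0 := by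
      linear_combination (d2 (fun p => F p 1) (toPair x)) * e0 - (d2 (fun p => F p 0) (toPair x)) * e1
    rcases mul_eq_zero.1 this with h | h
    · exact absurd h hne
    · exact h
  have h2 : (toPair v).2 = 0 := by
    have : (d1 (fun p => F p 0) (toPair x) * d2 (fun p => F p 1) (toPair x) -
      d2 (fun p => F p 0) (toPair x) * d1 (fun p => F p 1) (toPair x)) * (toPair v).2 = 0 := by
      linear_combination (d1 (fun p => F p 0) (toPair x)) * e1 - (d1 (fun p => F p 1) (toPair x)) * e0
    rcases mul_eq_zero.1 this with h | h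
    · exact absurd h hne
    · exact h
  have h3 : toPair v = 0 := Prod.ext h1 h2
  exact (map_eq_zero_iff toPair toPair.injective).1 h3

/-- An injective holomorphic map of a domain in two-space has a holomorphic inverse on every open
subset of its image. -/
theorem exists_holo_inverse {f : E2 → E2} {Ω W : Set E2} (hΩ : IsOpen Ω)
    (hf : DifferentiableOn ℂ f Ω) (hinj : InjOn f Ω) (hW : IsOpen W) (hsub : W ⊆ f '' Ω) :
    ∃ g : E2 → E2, DifferentiableOn ℂ g W ∧ ∀ w ∈ W, g w ∈ Ω ∧ f (g w) = w := by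
  classical
  refine ⟨Function.invFunOn f Ω, ?_, fun w hw => ⟨Function.invFunOn_mem (hsub hw),
    Function.invFunOn_eq (hsub hw)⟩⟩
  intro w hw
  refine DifferentiableAt.differentiableWithinAt ?_
  set x := Function.invFunOn f Ω w with hx
  have hxΩ : x ∈ Ω := Function.invFunOn_mem (hsub hw)
  have hfx : f x = w := Function.invFunOn_eq (hsub hw)
  have hs := hasStrictFDerivAt_of_holo hΩ hf hxΩ
  have hinj' := fderiv_injective_of_injOn hΩ hf hinj hxΩ
  obtain ⟨f', hf'⟩ : ∃ f' : E2 ≃L[ℂ] E2, (f' : E2 →L[ℂ] E2) = fderiv ℂ f x := by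
    refine ⟨(LinearEquiv.ofInjectiveEndo ((fderiv ℂ f x : E2 →L[ℂ] E2) : E2 →ₗ[ℂ] E2)
      hinj').toContinuousLinearEquiv, ?_⟩
    ext v i
    rfl
  rw [← hf'] at hs
  have hl := hs.to_localInverse
  have hl0 : hs.localInverse f f' x (f x) = x := hs.localInverse_apply_image
  rw [hfx] at hl hl0
  have hev1 : ∀ᶠ y in 𝓝 w, hs.localInverse f f' x y ∈ Ω := by
    have : Tendsto (hs.localInverse f f' x) (𝓝 w) (𝓝 x) := by
      have := hl.continuousAt.tendsto
      rwa [hl0] at this
    exact this.eventually (hΩ.mem_nhds hxΩ)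
  have hev2 : ∀ᶠ y in 𝓝 w, f (hs.localInverse f f' x y) = y := by
    have := hs.eventually_right_inverse
    rwa [hfx] at this
  refine hl.differentiableAt.congr_of_eventuallyEq ?_
  filter_upwards [hev1, hev2, hW.mem_nhds hw] with y hy1 hy2 hy3
  refine hinj (Function.invFunOn_mem (hsub hy3)) hy1 ?_
  rw [hy2, Function.invFunOn_eq (hsub hy3)]

end Pool.Agent.Squeeze
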