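import Mathlib

/-! A smooth regularisation of the positive part of the logarithm. -/

set_option autoImplicit false
open Set Metric Filter Topology

namespace Pool.Agent.Squeeze

/-- A smooth step. -/
noncomputable def th (t : ℝ) : ℝ := Real.smoothTransition (2 * t - 1)

lemma th_zero {t : ℝ} (h : t ≤ 1 / 2) : th t = 0 :=
  Real.smoothTransition.zero_of_nonpos (by linarith)

lemma th_one {t : ℝ} (h : 1 ≤ t) : th t = 1 := Real.smoothTransition.one_of_one_le (by linarith)

lemma th_nonneg (t : ℝ) : 0 ≤ th t := Real.smoothTransition.nonneg _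

lemma th_le_one (t : ℝ) : th t ≤ 1 := Real.smoothTransition.le_one _

lemma th_mono : Monotone th := fun a b hab => Real.smoothTransition.monotone (by linarith)

lemma th_pos {t : ℝ} (h : 1 / 2 < t) : 0 < th t := Real.smoothTransition.pos_of_pos (by linarith)

lemma th_contDiff (n : ℕ∞) : ContDiff ℝ n th := by
  unfold th
  exact Real.smoothTransition.contDiff.comp (by fun_prop)

/-- The derivative of `uf`. -/
noncomputable def gf (t : ℝ) : ℝ := th t / (2 * t)

lemma gf_zero {t : ℝ} (h : t ≤ 1 / 2) : gf t = 0 := by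
  unfold gf
  rw [th_zero h, zero_div]

lemma gf_nonneg (t : ℝ) : 0 ≤ gf t := by
  rcases le_or_gt t (1 / 2) with h | h
  · rw [gf_zero h]
  · exact div_nonneg (th_nonneg t) (by linarith)

lemma gf_contDiff (n : ℕ∞) : ContDiff ℝ n gf := by
  rw [contDiff_iff_contDiffAt]
  intro t
  rcases lt_or_ge t (1 / 2) with h | h
  · have : gf =ᶠ[𝓝 t] fun _ => 0 := by
      filter_upwards [Iio_mem_nhds h] with x hx
      exact gf_zero (le_of_lt hx)
    exact contDiffAt_const.congr_of_eventuallyEq this
  · unfold gf
    refine (th_contDiff n).contDiffAt.div (by fun_prop) ?_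
    linarith

lemma gf_continuous : Continuous gf := (gf_contDiff 0).continuous

/-- A smooth function vanishing for `t ≤ 1/2` and equal to `(log t)/2` plus a constant for
`t ≥ 1`. -/
noncomputable def uf (t : ℝ) : ℝ := ∫ x in (0 : ℝ)..t, gf x

lemma uf_hasDerivAt (t : ℝ) : HasDerivAt uf (gf t) t :=
  intervalIntegral.integral_hasDerivAt_right (gf_continuous.intervalIntegrable _ _)
    (gf_continuous.stronglyMeasurableAtFilter _ _) gf_continuous.continuousAt

lemma uf_contDiff (n : ℕ∞) : ContDiff ℝ n uf := by
  have h : ContDiff ℝ ((⊤ : ℕ∞) : WithTop ℕ∞) uf := by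
    rw [contDiff_infty_iff_deriv]
    refine ⟨fun t => (uf_hasDerivAt t).differentiableAt, ?_⟩
    have : deriv uf = gf := funext fun t => (uf_hasDerivAt t).deriv
    rw [this]
    exact gf_contDiff ⊤
  exact h.of_le (by exact_mod_cast le_top)

lemma uf_continuous : Continuous uf := (uf_contDiff 0).continuous

lemma uf_zero {t : ℝ} (h : t ≤ 1 / 2) : uf t = 0 := by
  unfold uf
  have : ∀ x ∈ uIcc 0 t, gf x = (fun _ => (0 : ℝ)) x := by
    intro x hx
    refine gf_zero ?_
    rw [mem_uIcc] at hx
    rcases hx with hx | hx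
    · exact hx.2.trans h
    · exact hx.2.trans (by norm_num)
  rw [intervalIntegral.integral_congr this]
  simp

lemma uf_mono : Monotone uf := by
  refine monotone_of_deriv_nonneg (fun t => (uf_hasDerivAt t).differentiableAt) fun t => ?_
  rw [(uf_hasDerivAt t).deriv]
  exact gf_nonneg t

lemma uf_nonneg (t : ℝ) : 0 ≤ uf t := by
  rcases le_or_gt t (1 / 2) with h | h
  · rw [uf_zero h]
  · rw [← uf_zero (le_refl (1 / 2 : ℝ))]
    exact uf_mono h.le

/-- Value of `uf` at one. -/
noncomputable def m0 : ℝ := uf 1

lemma m0_pos : 0 < m0 := by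
  have h1 : StrictMonoOn uf (Icc (1 / 2) 1) := by
    refine strictMonoOn_of_deriv_pos (convex_Icc _ _) uf_continuous.continuousOn fun x hx => ?_
    rw [interior_Icc] at hx
    rw [(uf_hasDerivAt x).deriv]
    exact div_pos (th_pos hx.1) (by linarith [hx.1])
  have := h1 (by norm_num : (1 / 2 : ℝ) ∈ Icc (1 / 2 : ℝ) 1) (by norm_num : (1 : ℝ) ∈ Icc (1 / 2 : ℝ) 1)
    (by norm_num)
  rwa [uf_zero (le_refl _)] at this

lemma uf_log {t : ℝ} (h : 1 ≤ t) : uf t = Real.log t / 2 + m0 := by
  have h1 : MonotoneOn (fun x => uf x - Real.log x / 2) (Ici 1) ∧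
      AntitoneOn (fun x => uf x - Real.log x / 2) (Ici 1) := by
    have hc : ContinuousOn (fun x => uf x - Real.log x / 2) (Ici 1) := by
      refine uf_continuous.continuousOn.sub (ContinuousOn.div_const ?_ _)
      refine Real.continuousOn_log.mono fun x hx => ?_
      have : (1 : ℝ) ≤ x := hx
      simp only [mem_compl_iff, mem_singleton_iff]
      linarith
    have hd : ∀ x ∈ interior (Ici (1 : ℝ)), HasDerivAt (fun x => uf x - Real.log x / 2) 0 x := by
      intro x hx
      rw [interior_Ici] at hx
      have hx' : (1 : ℝ) < x := hx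
      have := (uf_hasDerivAt x).sub ((Real.hasDerivAt_log (by linarith : x ≠ 0)).div_const 2)
      have e : gf x - x⁻¹ / 2 = 0 := by
        unfold gf
        rw [th_one hx'.le]
        have : x ≠ 0 := by linarith
        field_simp
        ring
      rwa [e] at this
    constructor
    · refine monotoneOn_of_deriv_nonneg (convex_Ici 1) hc
        (fun x hx => (hd x hx).differentiableAt.differentiableWithinAt) fun x hx => ?_
      rw [(hd x hx).deriv]
    · refine antitoneOn_of_deriv_nonpos (convex_Ici 1) hc
        (fun x hx => (hd x hx).differentiableAt.differentiableWithinAt) fun x hx => ?_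
      rw [(hd x hx).deriv]
  have e1 := h1.1 (self_mem_Ici : (1 : ℝ) ∈ Ici (1 : ℝ)) (show t ∈ Ici (1 : ℝ) from h) h
  have e2 := h1.2 (self_mem_Ici : (1 : ℝ) ∈ Ici (1 : ℝ)) (show t ∈ Ici (1 : ℝ) from h) h
  simp only [Real.log_one, zero_div, sub_zero] at e1 e2
  unfold m0
  linarith

/-- Supporting line inequality in logarithmic coordinates. -/
lemma uf_support {s t : ℝ} (hs : 0 < s) (ht : 0 < t) :
    uf s + th s * ((Real.log t - Real.log s) / 2) ≤ uf t := by
  set h : ℝ → ℝ := fun x => uf x - th s * (Real.log x / 2) with hh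
  have hd : ∀ x, 0 < x → HasDerivAt h ((th x - th s) / (2 * x)) x := by
    intro x hx
    have := (uf_hasDerivAt x).sub (((Real.hasDerivAt_log hx.ne').div_const 2).const_mul (th s))
    have e : gf x - th s * (x⁻¹ / 2) = (th x - th s) / (2 * x) := by
      unfold gf
      field_simp
    rwa [e] at this
  have hcont : ∀ x, 0 < x → ContinuousAt h x := fun x hx => (hd x hx).continuousAt
  suffices hsuff : h s ≤ h t by
    simp only [hh] at hsuff
    nlinarith [hsuff]
  rcases le_total s t with hst | hst
  · have hm : MonotoneOn h (Ici s) := by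
      refine monotoneOn_of_deriv_nonneg (convex_Ici s) (fun x hx => ?_) (fun x hx => ?_)
        fun x hx => ?_
      · exact (hcont x (lt_of_lt_of_le hs hx)).continuousWithinAt
      · rw [interior_Ici] at hx
        exact (hd x (hs.trans hx)).differentiableAt.differentiableWithinAt
      · rw [interior_Ici] at hx
        have hx' : s < x := hx
        rw [(hd x (hs.trans hx)).deriv]
        exact div_nonneg (sub_nonneg.2 (th_mono hx'.le)) (by linarith)
    exact hm self_mem_Ici hst hst
  · have hm : AntitoneOn h (Icc t s) := by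
      refine antitoneOn_of_deriv_nonpos (convex_Icc t s) (fun x hx => ?_) (fun x hx => ?_)
        fun x hx => ?_
      · exact (hcont x (lt_of_lt_of_le ht hx.1)).continuousWithinAt
      · rw [interior_Icc] at hx
        exact (hd x (ht.trans hx.1)).differentiableAt.differentiableWithinAt
      · rw [interior_Icc] at hx
        rw [(hd x (ht.trans hx.1)).deriv]
        refine div_nonpos_of_nonpos_of_nonneg (sub_nonpos.2 (th_mono hx.2.le)) ?_
        linarith [ht.trans hx.1]
    exact hm (left_mem_Icc.2 hst) (right_mem_Icc.2 hst) hst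

lemma uf_le_of_le_one {t : ℝ} (h : t ≤ 1) : uf t ≤ m0 := uf_mono h

/-- The multiplicative form of the supporting inequality, in terms of norms. -/
lemma uf_support_norm {a b : ℝ} (ha : 0 ≤ a) (hb : 0 ≤ b) :
    Real.exp (uf (a ^ 2)) * b ^ (th (a ^ 2)) ≤ Real.exp (uf (b ^ 2)) * a ^ (th (a ^ 2)) := by
  rcases le_or_gt (a ^ 2) (1 / 2) with h | h
  · rw [th_zero h, Real.rpow_zero, Real.rpow_zero, uf_zero h, Real.exp_zero, mul_one, mul_one]
    exact Real.one_le_exp (uf_nonneg _)
  · have ha' : 0 < a := by
      rcases ha.eq_or_lt with h0 | h0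
      · rw [← h0] at h
        norm_num at h
      · exact h0
    rcases hb.eq_or_lt with h0 | h0
    · rw [← h0, Real.zero_rpow (th_pos h).ne', mul_zero]
      positivity
    · have h1 := uf_support (pow_pos ha' 2) (pow_pos h0 2)
      rw [Real.log_pow, Real.log_pow] at h1
      rw [Real.rpow_def_of_pos ha', Real.rpow_def_of_pos h0, ← Real.exp_add, ← Real.exp_add,
        Real.exp_le_exp]
      push_cast at h1
      nlinarith [h1]

lemma uf_sq_of_one_le {a : ℝ} (h : 1 ≤ a) : uf (a ^ 2) = Real.log a + m0 := by
  rw [uf_log (by nlinarith), Real.log_pow]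
  push_cast
  ring

end Pool.Agent.Squeeze
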