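import Mathlib
import Pool.Agent.Helper23_Squeeze.UFun

/-! Analysis in the local model: a bounded holomorphic map almost identifies two points lying over
the bottoms of two adjacent wells, while analytic discs through these points stay far apart. -/

set_option autoImplicit false
open Set Metric Filter Topology

namespace Pool.Agent.Squeeze

/-- Parameters of the local model. -/
structure Params where
  /-- centre -/
  z0 : ℂ
  /-- radius of the disc -/
  d : ℝ
  /-- depth -/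
  K : ℝ
  /-- exponent -/
  m : ℕ
  hd : 0 < d
  hK : 6 ≤ K
  hm : K ≤ m

namespace Params

variable (P : Params)

/-- Exponent, a multiple of four. -/
def N : ℕ := 4 * P.m

/-- Distance between the two wells. -/
noncomputable def r : ℝ := P.d * Real.exp (-P.K - m0) / 2

/-- The normalised quadratic polynomial. -/
noncomputable def q (z : ℂ) : ℂ :=
  (z - P.z0) * (z - P.z0 - P.r) / (P.r ^ 2 * Real.exp (-P.K) : ℝ)

/-- The weight. -/
noncomputable def φ (z : ℂ) : ℝ := uf (‖P.q z‖ ^ 2)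

/-- The scaled weight. -/
noncomputable def ψ (z : ℂ) : ℝ := P.φ z / P.N

/-- The height of the two distinguished points. -/
noncomputable def a : ℝ := Real.exp (-P.K / (2 * P.N))

lemma K_pos : 0 < P.K := by linarith [P.hK]

lemma m_pos : (0 : ℝ) < P.m := by linarith [P.hK, P.hm]

lemma N_pos : (0 : ℝ) < P.N := by
  unfold N
  push_cast
  linarith [P.m_pos]

lemma N_eq : (P.N : ℝ) = 4 * P.m := by
  unfold N
  push_cast
  ring

lemma r_pos : 0 < P.r := by
  unfold r
  have := P.hd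
  positivity

lemma exp_le_one : Real.exp (-P.K - m0) ≤ 1 := by
  rw [Real.exp_le_one_iff]
  linarith [P.K_pos, m0_pos]

lemma r_le : P.r ≤ P.d / 2 := by
  unfold r
  have := P.exp_le_one
  have := P.hd
  nlinarith

lemma norm_q (z : ℂ) : ‖P.q z‖ = ‖z - P.z0‖ * ‖z - P.z0 - P.r‖ / (P.r ^ 2 * Real.exp (-P.K)) := by
  unfold q
  rw [norm_div, norm_mul, Complex.norm_real, Real.norm_of_nonneg]
  have := P.r_pos
  positivity

lemma continuous_q : Continuous P.q := by
  unfold q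
  fun_prop

lemma continuous_ψ : Continuous P.ψ := by
  unfold ψ φ
  exact (uf_continuous.comp (P.continuous_q.norm.pow 2)).div_const _

lemma φ_z0 : P.φ P.z0 = 0 := by
  unfold φ q
  rw [sub_self, zero_mul, zero_div, norm_zero]
  exact uf_zero (by norm_num)

lemma φ_z1 : P.φ (P.z0 + P.r) = 0 := by
  unfold φ q
  rw [add_sub_cancel_left, sub_self, mul_zero, zero_div, norm_zero]
  exact uf_zero (by norm_num)

/-- The logarithm of the reciprocal of the inner radius, times `N`. -/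
noncomputable def A : ℝ := m0 + Real.log (2 * (P.d / P.r) ^ 2 / Real.exp (-P.K))

lemma ratio : P.d / P.r = 2 * Real.exp (P.K + m0) := by
  unfold r
  have h1 : Real.exp (-P.K - m0) = (Real.exp (P.K + m0))⁻¹ := by
    rw [← Real.exp_neg]
    congr 1
    ring
  have := P.hd
  have := Real.exp_pos (P.K + m0)
  rw [h1]
  field_simp

lemma one_lt_ratio : 1 < 2 * (P.d / P.r) ^ 2 / Real.exp (-P.K) := by
  rw [P.ratio, Real.exp_neg]
  have h1 : 1 ≤ Real.exp (P.K + m0) := Real.one_le_exp (by linarith [P.K_pos, m0_pos])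
  have h2 : 1 ≤ Real.exp P.K := Real.one_le_exp P.K_pos.le
  rw [div_inv_eq_mul]
  have h3 : 1 ≤ Real.exp (P.K + m0) ^ 2 := one_le_pow₀ h1
  nlinarith

lemma φ_lt_A {z : ℂ} (hz : z ∈ ball P.z0 P.d) : P.φ z < P.A := by
  have hq : ‖P.q z‖ < 2 * (P.d / P.r) ^ 2 / Real.exp (-P.K) := by
    rw [P.norm_q]
    rw [mem_ball, dist_eq_norm] at hz
    have h1 : ‖z - P.z0 - P.r‖ < 2 * P.d := by
      calc ‖z - P.z0 - P.r‖ ≤ ‖z - P.z0‖ + ‖(P.r : ℂ)‖ := norm_sub_le _ _
        _ = ‖z - P.z0‖ + P.r := by rw [Complex.norm_real, Real.norm_of_nonneg P.r_pos.le]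
        _ < 2 * P.d := by linarith [P.r_le, P.hd]
    have hr := P.r_pos
    have hE := Real.exp_pos (-P.K)
    have h2 : ‖z - P.z0‖ * ‖z - P.z0 - P.r‖ < P.d * (2 * P.d) :=
      mul_lt_mul'' hz h1 (norm_nonneg _) (norm_nonneg _)
    calc ‖z - P.z0‖ * ‖z - P.z0 - P.r‖ / (P.r ^ 2 * Real.exp (-P.K))
        < P.d * (2 * P.d) / (P.r ^ 2 * Real.exp (-P.K)) := by gcongr
      _ = 2 * (P.d / P.r) ^ 2 / Real.exp (-P.K) := by field_simp
  unfold φ A
  have hlog : 0 < Real.log (2 * (P.d / P.r) ^ 2 / Real.exp (-P.K)) := Real.log_pos P.one_lt_ratio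
  rcases le_or_gt 1 ‖P.q z‖ with h | h
  · rw [uf_sq_of_one_le h]
    have := Real.log_lt_log (by linarith) hq
    linarith
  · have : uf (‖P.q z‖ ^ 2) ≤ m0 := uf_le_of_le_one (by nlinarith [norm_nonneg (P.q z)])
    linarith

lemma A_ge : P.K ≤ P.A := by
  unfold A
  rw [Real.log_div (by have := P.hd; have := P.r_pos; positivity) (Real.exp_ne_zero _), Real.log_exp]
  have h1 : 0 ≤ Real.log (2 * (P.d / P.r) ^ 2) := by
    refine Real.log_nonneg ?_
    rw [P.ratio]
    have h1 : 1 ≤ Real.exp (P.K + m0) := Real.one_le_exp (by linarith [P.K_pos, m0_pos])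
    have h3 : 1 ≤ Real.exp (P.K + m0) ^ 2 := one_le_pow₀ h1
    nlinarith
  linarith [m0_pos]

/-- `exp (A / 4) ≤ d / r`. -/
lemma exp_A_le : Real.exp (P.A / 4) ≤ P.d / P.r := by
  have hx : 0 < P.d / P.r := div_pos P.hd P.r_pos
  have h1 : Real.exp P.A ≤ (P.d / P.r) ^ 4 := by
    unfold A
    rw [Real.exp_add, Real.exp_log (by linarith [P.one_lt_ratio]), Real.exp_neg, div_inv_eq_mul]
    rw [P.ratio]
    have e : Real.exp (P.K + m0) = Real.exp P.K * Real.exp m0 := Real.exp_add _ _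
    have h2 : 1 ≤ Real.exp (P.K + m0) := Real.one_le_exp (by linarith [P.K_pos, m0_pos])
    set x := Real.exp (P.K + m0) with hxdef
    have h3 : Real.exp m0 * (2 * (2 * x) ^ 2 * Real.exp P.K) = 8 * x ^ 2 * x := by
      rw [e]; ring
    rw [h3]
    have h4 : (2 * x) ^ 4 = 16 * x ^ 2 * x * x := by ring
    rw [h4]
    have h5 : 0 < x ^ 2 * x := by positivity
    nlinarith
  have h2 : Real.exp (P.A / 4) ^ 4 ≤ (P.d / P.r) ^ 4 := by
    rw [← Real.exp_nat_mul]
    convert h1 using 2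
    push_cast
    ring
  exact le_of_pow_le_pow_left₀ (by norm_num) hx.le h2

/-- The local domain. -/
def dom : Set (ℂ × ℂ) := {p | p.1 ∈ ball P.z0 P.d ∧ ‖p.2‖ < Real.exp (-P.ψ p.1)}

lemma isOpen_dom : IsOpen P.dom := by
  refine (isOpen_ball.preimage continuous_fst).inter (isOpen_lt continuous_snd.norm ?_)
  exact Real.continuous_exp.comp (P.continuous_ψ.comp continuous_fst).neg

/-- Bounded holomorphic maps almost identify the two distinguished points. -/
theorem close {E : Type*} [NormedAddCommGroup E] [NormedSpace ℂ E] {g : ℂ × ℂ → E}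
    (hg : DifferentiableOn ℂ g P.dom) (hb : ∀ p ∈ P.dom, ‖g p‖ ≤ 1) :
    ‖g (P.z0, (P.a : ℂ)) - g (P.z0 + P.r, (P.a : ℂ))‖ ≤ 2 * Real.exp (-P.K / 16) := by
  have hK := P.K_pos
  have hN := P.N_pos
  have hmpos := P.m_pos
  have hr := P.r_pos
  have hd := P.hd
  have hz0 : P.z0 ∈ ball P.z0 P.d := mem_ball_self P.hd
  have hz1 : P.z0 + P.r ∈ ball P.z0 P.d := by
    rw [mem_ball, dist_eq_norm, add_sub_cancel_left, Complex.norm_real, Real.norm_of_nonneg hr.le]
    linarith [P.r_le]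
  have hgd : ∀ p ∈ P.dom, DifferentiableAt ℂ g p := fun p hp =>
    (hg p hp).differentiableAt (P.isOpen_dom.mem_nhds hp)
  -- points over the wells
  have hw0 : ∀ w : ℂ, ‖w‖ < 1 → (P.z0, w) ∈ P.dom := by
    intro w hw
    refine ⟨hz0, ?_⟩
    simp only [ψ, P.φ_z0, zero_div, neg_zero, Real.exp_zero]
    exact hw
  have hw1 : ∀ w : ℂ, ‖w‖ < 1 → (P.z0 + P.r, w) ∈ P.dom := by
    intro w hw
    refine ⟨hz1, ?_⟩
    simp only [ψ, P.φ_z1, zero_div, neg_zero, Real.exp_zero]
    exact hw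
  set Δ : ℂ → E := fun w => g (P.z0, w) - g (P.z0 + P.r, w) with hΔ
  have hΔd : ∀ w : ℂ, ‖w‖ < 1 → DifferentiableAt ℂ Δ w := by
    intro w hw
    refine DifferentiableAt.sub ?_ ?_
    · exact (hgd _ (hw0 w hw)).comp (f := fun w : ℂ => (P.z0, w)) w (by fun_prop)
    · exact (hgd _ (hw1 w hw)).comp (f := fun w : ℂ => (P.z0 + P.r, w)) w (by fun_prop)
  have hΔ2 : ∀ w : ℂ, ‖w‖ < 1 → ‖Δ w‖ ≤ 2 := by
    intro w hw
    calc ‖Δ w‖ ≤ ‖g (P.z0, w)‖ + ‖g (P.z0 + P.r, w)‖ := norm_sub_le _ _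
      _ ≤ 2 := by linarith [hb _ (hw0 w hw), hb _ (hw1 w hw)]
  set Wa : ℝ := Real.exp (-P.A / P.N) with hWa
  have hWapos : 0 < Wa := Real.exp_pos _
  -- small heights
  have hsmall : ∀ w : ℂ, ‖w‖ ≤ Wa → ‖Δ w‖ ≤ 2 / (P.d / P.r) := by
    intro w hw
    have hmem : ∀ z ∈ ball P.z0 P.d, (z, w) ∈ P.dom := by
      intro z hz
      refine ⟨hz, hw.trans_lt ?_⟩
      rw [hWa, Real.exp_lt_exp, ψ, neg_div]
      have := P.φ_lt_A hz
      have : P.φ z / P.N < P.A / P.N := by gcongr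
      linarith
    have h1 := Complex.dist_le_div_mul_dist_of_mapsTo_ball (f := fun z => g (z, w)) (c := P.z0)
      (R₁ := P.d) (R₂ := 2) (z := P.z0 + P.r) (by
        intro z hz
        exact ((hgd _ (hmem z hz)).comp (f := fun z : ℂ => (z, w)) z
          (by fun_prop)).differentiableWithinAt) (by
        intro z hz
        rw [mem_closedBall, dist_eq_norm]
        calc ‖g (z, w) - g (P.z0, w)‖ ≤ ‖g (z, w)‖ + ‖g (P.z0, w)‖ := norm_sub_le _ _
          _ ≤ 2 := by linarith [hb _ (hmem z hz), hb _ (hmem P.z0 hz0)]) hz1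
    rw [dist_comm, dist_eq_norm] at h1
    refine h1.trans (le_of_eq ?_)
    rw [dist_eq_norm, add_sub_cancel_left, Complex.norm_real, Real.norm_of_nonneg hr.le]
    field_simp
  set ρ1 : ℝ := Real.exp (-P.K / (4 * P.N)) with hρ1
  have hρ1pos : 0 < ρ1 := Real.exp_pos _
  have hρ1lt : ρ1 < 1 := by
    rw [hρ1, Real.exp_lt_one_iff]
    exact div_neg_of_neg_of_pos (by linarith) (by positivity)
  have haρ : P.a < ρ1 := by
    rw [hρ1, a, Real.exp_lt_exp, div_lt_div_iff₀ (by positivity) (by positivity)]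
    nlinarith
  have hapos : 0 < P.a := Real.exp_pos _
  have hWaa : Wa < P.a := by
    rw [hWa, a, Real.exp_lt_exp, div_lt_div_iff₀ (by positivity) (by positivity)]
    have := P.A_ge
    nlinarith
  -- the annulus
  set Ann : Set ℂ := {w | Wa < ‖w‖ ∧ ‖w‖ < ρ1} with hAnn
  have hAnno : IsOpen Ann :=
    (isOpen_lt continuous_const continuous_norm).inter (isOpen_lt continuous_norm continuous_const)
  have hcl : closure Ann ⊆ {w | Wa ≤ ‖w‖ ∧ ‖w‖ ≤ ρ1} := by
    refine closure_minimal (fun w hw => ⟨hw.1.le, hw.2.le⟩) ?_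
    exact (isClosed_le continuous_const continuous_norm).inter
      (isClosed_le continuous_norm continuous_const)
  have hbd : Bornology.IsBounded Ann := by
    refine (isBounded_ball (x := (0 : ℂ)) (r := ρ1)).subset fun w hw => ?_
    rw [mem_ball, dist_zero_right]
    exact hw.2
  set Φ : ℂ → E := fun w => (w ^ P.m)⁻¹ • Δ w with hΦ
  have hΦd : ∀ w ∈ closure Ann, DifferentiableAt ℂ Φ w := by
    intro w hw
    have h1 := hcl hw
    have hw0 : w ≠ 0 := by
      intro h0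
      rw [h0, mem_ofPred_eq, norm_zero] at h1
      linarith [h1.1]
    refine DifferentiableAt.smul ?_ (hΔd w (h1.2.trans_lt hρ1lt))
    exact (differentiableAt_id.pow _).inv (pow_ne_zero _ hw0)
  have hmax : ‖Φ (P.a : ℂ)‖ ≤ 2 / ρ1 ^ P.m := by
    refine Complex.norm_le_of_forall_mem_frontier_norm_le (U := Ann) hbd ?_ ?_ (subset_closure ?_)
    · exact DifferentiableOn.diffContOnCl fun w hw => (hΦd w hw).differentiableWithinAt
    · intro w hw
      rw [hAnno.frontier_eq] at hw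
      have h1 := hcl hw.1
      have h2 : ‖w‖ = Wa ∨ ‖w‖ = ρ1 := by
        by_contra hcon
        push Not at hcon
        exact hw.2 ⟨lt_of_le_of_ne h1.1 (Ne.symm hcon.1), lt_of_le_of_ne h1.2 hcon.2⟩
      simp only [hΦ]
      rw [norm_smul, norm_inv, norm_pow]
      rcases h2 with h2 | h2
      · have h3 := hsmall w h2.le
        rw [h2]
        have h4 : (Wa ^ P.m)⁻¹ = Real.exp (P.A / 4) := by
          rw [hWa, ← Real.exp_nat_mul, ← Real.exp_neg]
          congr 1
          rw [P.N_eq]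
          field_simp
        rw [h4]
        have h5 := P.exp_A_le
        have h6 : 0 < P.d / P.r := div_pos hd hr
        have h7 : ρ1 ^ P.m ≤ 1 := pow_le_one₀ hρ1pos.le hρ1lt.le
        have h8 : 0 < ρ1 ^ P.m := by positivity
        calc Real.exp (P.A / 4) * ‖Δ w‖ ≤ (P.d / P.r) * (2 / (P.d / P.r)) := by
              gcongr
          _ = 2 := by field_simp
          _ ≤ 2 / ρ1 ^ P.m := by
              rw [le_div_iff₀ h8]
              nlinarith
      · rw [h2]
        rw [mul_comm, ← div_eq_mul_inv]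
        have := hΔ2 w (by rw [h2]; exact hρ1lt)
        gcongr
    · refine ⟨?_, ?_⟩
      · rw [Complex.norm_real, Real.norm_of_nonneg hapos.le]
        exact hWaa
      · rw [Complex.norm_real, Real.norm_of_nonneg hapos.le]
        exact haρ
  simp only [hΦ] at hmax
  rw [norm_smul, norm_inv, norm_pow, Complex.norm_real, Real.norm_of_nonneg hapos.le,
    inv_mul_le_iff₀ (by positivity)] at hmax
  refine hmax.trans (le_of_eq ?_)
  have h1 : P.a ^ P.m = Real.exp (-P.K / 8) := by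
    rw [a, ← Real.exp_nat_mul]
    congr 1
    rw [P.N_eq]
    field_simp
    ring
  have h2 : ρ1 ^ P.m = Real.exp (-P.K / 16) := by
    rw [hρ1, ← Real.exp_nat_mul]
    congr 1
    rw [P.N_eq]
    field_simp
    ring
  rw [h1, h2]
  have h3 : Real.exp (-P.K / 8) = Real.exp (-P.K / 16) * Real.exp (-P.K / 16) := by
    rw [← Real.exp_add]
    congr 1
    ring
  rw [h3]
  have := Real.exp_pos (-P.K / 16)
  field_simp

/-- A Schwarz-Pick type lower bound. -/
lemma _root_.Pool.Agent.Squeeze.schwarz_pick_aux {x a τ : ℝ} {w : ℂ} (hx : x = ‖w‖) (hx1 : x ≤ 1)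
    (ha0 : 0 < a) (ha1 : a < 1) (hτ0 : 0 ≤ τ) (hτ1 : τ < 1)
    (h : ‖w - a‖ ≤ τ * ‖1 - a * w‖) : (1 - x) * (1 - τ) ≤ (1 - a) * (1 + τ) := by
  have hx0 : 0 ≤ x := hx ▸ norm_nonneg _
  have e1 : ‖w - a‖ ^ 2 = x ^ 2 - 2 * a * w.re + a ^ 2 := by
    rw [hx, ← Complex.normSq_eq_norm_sq, ← Complex.normSq_eq_norm_sq, Complex.normSq_apply,
      Complex.normSq_apply]
    simp
    ring
  have e2 : ‖1 - a * w‖ ^ 2 = 1 - 2 * a * w.re + a ^ 2 * x ^ 2 := by
    rw [hx, ← Complex.normSq_eq_norm_sq, ← Complex.normSq_eq_norm_sq, Complex.normSq_apply,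
      Complex.normSq_apply]
    simp
    ring
  have h2 : ‖w - a‖ ^ 2 ≤ τ ^ 2 * ‖1 - a * w‖ ^ 2 := by
    rw [← mul_pow]
    exact pow_le_pow_left₀ (norm_nonneg _) h 2
  rw [e1, e2] at h2
  have hre : w.re ≤ x := by
    rw [hx]
    exact Complex.re_le_norm w
  have h3 : (x - a) ^ 2 ≤ (τ * (1 - a * x)) ^ 2 := by
    have h4 : 0 ≤ 2 * a * (1 - τ ^ 2) := by
      have : τ ^ 2 ≤ 1 := by nlinarith
      nlinarith
    nlinarith [mul_le_mul_of_nonneg_left hre h4]
  have h5 : 0 ≤ τ * (1 - a * x) := mul_nonneg hτ0 (by nlinarith)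
  have h6 := abs_le_of_sq_le_sq' h3 h5
  nlinarith [h6.1, mul_nonneg hτ0 (mul_nonneg (sub_nonneg.2 ha1.le) (sub_nonneg.2 hx1))]

lemma a_pos : 0 < P.a := Real.exp_pos _

lemma a_lt_one : P.a < 1 := by
  rw [a, Real.exp_lt_one_iff]
  have := P.K_pos
  have := P.N_pos
  exact div_neg_of_neg_of_pos (by linarith) (by positivity)

/-- Along an analytic disc of large radius with first height `a` the height stays large. -/
lemma height_bound {ω : ℂ → ℂ} {T : ℝ} (hT : 9 ≤ T) (hω : DifferentiableOn ℂ ω (ball 0 T))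
    (hω1 : ∀ t ∈ ball (0 : ℂ) T, ‖ω t‖ ≤ 1) (hω0 : ω 0 = P.a) {t : ℂ} (ht : ‖t‖ ≤ 1) :
    Real.exp (-(3 / 4) * P.K) ≤ ‖ω t‖ ^ P.N := by
  have ha0 := P.a_pos
  have ha1 := P.a_lt_one
  have hK := P.K_pos
  have hN := P.N_pos
  set h : ℂ → ℂ := fun t => (ω t - P.a) / (1 - P.a * ω t) with hh
  have hden : ∀ t ∈ ball (0 : ℂ) T, 1 - P.a * ω t ≠ 0 := by
    intro s hs h0
    have h1 : (1 : ℂ) = P.a * ω s := by linear_combination h0
    have h2 : ‖(1 : ℂ)‖ = ‖(P.a : ℂ) * ω s‖ := by rw [← h1]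
    rw [norm_one, norm_mul, Complex.norm_real, Real.norm_of_nonneg ha0.le] at h2
    have := hω1 s hs
    nlinarith
  have hhd : DifferentiableOn ℂ h (ball 0 T) :=
    (hω.sub_const _).div ((differentiableOn_const _).sub (hω.const_mul _)) hden
  have hh0 : h 0 = 0 := by simp [hh, hω0]
  have hmaps : MapsTo h (ball 0 T) (closedBall (h 0) 1) := by
    intro s hs
    rw [hh0, mem_closedBall, dist_zero_right]
    simp only [hh]
    rw [norm_div, div_le_one (norm_pos_iff.2 (hden s hs))]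
    have hs1 := hω1 s hs
    have e1 : ‖ω s - P.a‖ ^ 2 ≤ ‖1 - P.a * ω s‖ ^ 2 := by
      have e3 : ‖ω s - P.a‖ ^ 2 = ‖ω s‖ ^ 2 - 2 * P.a * (ω s).re + P.a ^ 2 := by
        rw [← Complex.normSq_eq_norm_sq, ← Complex.normSq_eq_norm_sq, Complex.normSq_apply,
          Complex.normSq_apply]
        simp
        ring
      have e4 : ‖1 - P.a * ω s‖ ^ 2 = 1 - 2 * P.a * (ω s).re + P.a ^ 2 * ‖ω s‖ ^ 2 := by
        rw [← Complex.normSq_eq_norm_sq, ← Complex.normSq_eq_norm_sq, Complex.normSq_apply,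
          Complex.normSq_apply]
        simp
        ring
      rw [e3, e4]
      have h5 : ‖ω s‖ ^ 2 ≤ 1 := by nlinarith [norm_nonneg (ω s)]
      have h6 : P.a ^ 2 ≤ 1 := by nlinarith
      nlinarith
    exact le_of_sq_le_sq e1 (norm_nonneg _)
  have htT : t ∈ ball (0 : ℂ) T := by
    rw [mem_ball, dist_zero_right]
    linarith
  have hTpos : 0 < T := by linarith
  have hs := Complex.dist_le_div_mul_dist_of_mapsTo_ball hhd hmaps htT
  rw [hh0, dist_zero_right, dist_zero_right] at hs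
  have hs2 : ‖h t‖ ≤ 1 / 9 := by
    refine hs.trans ?_
    have h1 : 1 / T ≤ 1 / 9 := one_div_le_one_div_of_le (by norm_num) hT
    have h2 : 0 ≤ 1 / T := by positivity
    nlinarith [norm_nonneg t]
  simp only [hh] at hs2
  rw [norm_div, div_le_iff₀ (norm_pos_iff.2 (hden t htT))] at hs2
  have h3 := schwarz_pick_aux rfl (hω1 t htT) ha0 ha1 (by norm_num : (0 : ℝ) ≤ 1 / 9)
    (by norm_num) hs2
  -- lower bound for `a`
  have h4 : 1 - P.K / (2 * P.N) ≤ P.a := by
    have := Real.add_one_le_exp (-P.K / (2 * P.N))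
    rw [a]
    have e : -P.K / (2 * P.N) = -(P.K / (2 * P.N)) := by ring
    rw [e] at this ⊢
    linarith
  set s : ℝ := 5 * P.K / (8 * P.N) with hs'
  have h5 : 1 - s ≤ ‖ω t‖ := by
    have e : P.K / (2 * P.N) * (5 / 4) = s := by
      rw [hs']
      field_simp
      ring
    nlinarith
  have hs0 : 0 < s := by positivity
  have hs1 : s ≤ 1 / 6 := by
    rw [hs', div_le_iff₀ (by positivity), P.N_eq]
    have := P.hm
    linarith
  have h6 : Real.exp (-(6 / 5 * s)) ≤ 1 - s := by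
    rw [Real.exp_neg, inv_le_comm₀ (Real.exp_pos _) (by linarith)]
    have h7 : s / (1 - s) ≤ 6 / 5 * s := by
      rw [div_le_iff₀ (by linarith)]
      nlinarith
    calc (1 - s)⁻¹ = s / (1 - s) + 1 := by
          have : 1 - s ≠ 0 := by linarith
          field_simp
          ring
      _ ≤ Real.exp (s / (1 - s)) := Real.add_one_le_exp _
      _ ≤ Real.exp (6 / 5 * s) := Real.exp_le_exp.2 h7
  calc Real.exp (-(3 / 4) * P.K) = Real.exp (-(6 / 5 * s)) ^ P.N := by
        rw [← Real.exp_nat_mul]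
        congr 1
        rw [hs']
        field_simp
        ring
    _ ≤ (1 - s) ^ P.N := pow_le_pow_left₀ (Real.exp_pos _).le h6 _
    _ ≤ ‖ω t‖ ^ P.N := pow_le_pow_left₀ (by linarith) h5 _

/-- Points of large height lie over small neighbourhoods of the wells. -/
lemma small_of_height {z w : ℂ} (hw : ‖w‖ < Real.exp (-P.ψ z))
    (hw2 : Real.exp (-(3 / 4) * P.K) ≤ ‖w‖ ^ P.N) :
    ‖z - P.z0‖ * ‖z - P.z0 - P.r‖ < P.r ^ 2 / 4 := by
  have hK := P.K_pos
  have hN := P.N_pos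
  have hr := P.r_pos
  have h1 : ‖w‖ ^ P.N < Real.exp (-P.φ z) := by
    have hne : P.N ≠ 0 := by
      intro h0
      rw [h0] at hN
      norm_num at hN
    have h2 := pow_lt_pow_left₀ hw (norm_nonneg _) hne
    rwa [← Real.exp_nat_mul, ψ, ← neg_div, mul_div_cancel₀ _ hN.ne'] at h2
  have h2 : P.φ z < 3 / 4 * P.K := by
    have := hw2.trans_lt h1
    rw [Real.exp_lt_exp] at this
    linarith
  have h3 : ‖P.q z‖ < Real.exp (3 / 4 * P.K) := by
    rcases le_or_gt 1 ‖P.q z‖ with h | h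
    · unfold φ at h2
      rw [uf_sq_of_one_le h] at h2
      have h4 : Real.log ‖P.q z‖ < 3 / 4 * P.K := by linarith [m0_pos]
      exact (Real.log_lt_iff_lt_exp (by linarith)).1 h4
    · exact h.trans_le (Real.one_le_exp (by positivity))
  rw [P.norm_q, div_lt_iff₀ (by positivity)] at h3
  have h4 : Real.exp (3 / 4 * P.K) * (P.r ^ 2 * Real.exp (-P.K)) = P.r ^ 2 * Real.exp (-P.K / 4) := by
    have : Real.exp (-P.K / 4) = Real.exp (3 / 4 * P.K) * Real.exp (-P.K) := by
      rw [← Real.exp_add]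
      congr 1
      ring
    rw [this]
    ring
  rw [h4] at h3
  have h5 : Real.exp (-P.K / 4) ≤ 1 / 4 := by
    have h6 : Real.exp (-P.K / 4) ≤ Real.exp (-(3 / 2)) := Real.exp_le_exp.2 (by linarith [P.hK])
    have h7 : (4 : ℝ) ≤ Real.exp (3 / 2) := by
      have h8 : (2.718 : ℝ) ≤ Real.exp 1 := by linarith [Real.exp_one_gt_d9]
      have h9 : Real.exp (3 / 2) = Real.exp 1 * Real.exp (1 / 2) := by
        rw [← Real.exp_add]; norm_num
      have h10 : (1 + 1 / 2 : ℝ) ≤ Real.exp (1 / 2) := by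
        have := Real.add_one_le_exp (1 / 2 : ℝ)
        linarith
      rw [h9]
      nlinarith
    refine h6.trans ?_
    rw [Real.exp_neg, inv_le_comm₀ (Real.exp_pos _) (by norm_num)]
    simpa using h7
  have h6 : 0 < P.r ^ 2 := by positivity
  nlinarith

/-- There is no analytic disc of large radius in the local domain through the two points. -/
theorem no_disc {ζ ω : ℂ → ℂ} {T : ℝ} (hT : 9 ≤ T) (hζ : DifferentiableOn ℂ ζ (ball 0 T))
    (hω : DifferentiableOn ℂ ω (ball 0 T))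
    (hmem : ∀ t ∈ ball (0 : ℂ) T, ‖ω t‖ < Real.exp (-P.ψ (ζ t)))
    (hζ0 : ζ 0 = P.z0) (hζ1 : ζ 1 = P.z0 + P.r) (hω0 : ω 0 = P.a) : False := by
  have hr := P.r_pos
  have hψ0 : ∀ z, 0 ≤ P.ψ z := fun z => div_nonneg (uf_nonneg _) P.N_pos.le
  have hω1 : ∀ t ∈ ball (0 : ℂ) T, ‖ω t‖ ≤ 1 := by
    intro t ht
    refine (hmem t ht).le.trans ?_
    rw [Real.exp_le_one_iff]
    linarith [hψ0 (ζ t)]
  have hin : ∀ t : ℝ, t ∈ Icc (0 : ℝ) 1 → (t : ℂ) ∈ ball (0 : ℂ) T := by
    intro t ht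
    rw [mem_ball, dist_zero_right, Complex.norm_real, Real.norm_of_nonneg ht.1]
    linarith [ht.2]
  have hcont : ContinuousOn (fun t : ℝ => (ζ t - P.z0).re) (Icc 0 1) := by
    refine Complex.continuous_re.comp_continuousOn ((ContinuousOn.comp (t := ball 0 T)
      hζ.continuousOn Complex.continuous_ofReal.continuousOn hin).sub continuousOn_const)
  have hivt := intermediate_value_Icc (zero_le_one) hcont
  have hhalf : P.r / 2 ∈ Icc ((ζ ((0 : ℝ) : ℂ) - P.z0).re) ((ζ ((1 : ℝ) : ℂ) - P.z0).re) := by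
    rw [Complex.ofReal_zero, Complex.ofReal_one, hζ0, hζ1, sub_self, add_sub_cancel_left]
    simp only [Complex.zero_re, Complex.ofReal_re]
    constructor <;> linarith
  obtain ⟨t, ht, hte⟩ := hivt hhalf
  have hte' : (ζ t - P.z0).re = P.r / 2 := hte
  have ht1 : ‖(t : ℂ)‖ ≤ 1 := by
    rw [Complex.norm_real, Real.norm_of_nonneg ht.1]
    exact ht.2
  have h1 := P.small_of_height (hmem t (hin t ht)) (P.height_bound hT hω hω1 hω0 ht1)
  have h2 : P.r / 2 ≤ ‖ζ t - P.z0‖ := by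
    rw [← hte']
    exact Complex.re_le_norm _
  have h3 : P.r / 2 ≤ ‖ζ t - P.z0 - P.r‖ := by
    have : (ζ t - P.z0 - P.r).re = -(P.r / 2) := by
      rw [Complex.sub_re, hte', Complex.ofReal_re]
      ring
    have h4 := Complex.abs_re_le_norm (ζ t - P.z0 - P.r)
    rw [this, abs_neg, abs_of_pos (by linarith)] at h4
    exact h4
  nlinarith

end Params

end Pool.Agent.Squeeze
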