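import Mathlib
import Pool.Agent.Helper23_Squeeze.Local

/-! The sequence of wells and the smooth subharmonic weight. -/

set_option autoImplicit false
open Set Metric Filter Topology

namespace Pool.Agent.Squeeze

/-- Centres of the wells. -/
noncomputable def zc (k : ℕ) : ℝ := (1 / 2) ^ (k + 2)

/-- Radii. -/
noncomputable def dk (k : ℕ) : ℝ := (1 / 2) ^ (k + 6)

/-- Depths. -/
noncomputable def Kk (k : ℕ) : ℝ := 32 * (k + 1)

lemma dk_pos (k : ℕ) : 0 < dk k := by unfold dk; positivity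

lemma zc_pos (k : ℕ) : 0 < zc k := by unfold zc; positivity

/-- Parameters with a given exponent. -/
noncomputable def par (k m : ℕ) (hm : 32 * (k + 1) ≤ m) : Params where
  z0 := (zc k : ℂ)
  d := dk k
  K := Kk k
  m := m
  hd := dk_pos k
  hK := by
    unfold Kk
    have : (0 : ℝ) ≤ k := Nat.cast_nonneg k
    linarith
  hm := by
    unfold Kk
    exact_mod_cast hm

/-- The unscaled weight. -/
noncomputable def φk (k : ℕ) : ℂ → ℝ := (par k (32 * (k + 1)) le_rfl).φ

lemma par_φ (k m : ℕ) (hm : 32 * (k + 1) ≤ m) : (par k m hm).φ = φk k := rfl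

/-- A cutoff. -/
noncomputable def χ : ContDiffBump (0 : ℂ) := ⟨1, 2, one_pos, one_lt_two⟩

lemma χ_one {z : ℂ} (hz : ‖z‖ ≤ 1) : χ z = 1 :=
  χ.one_of_mem_closedBall (by simpa [χ] using hz)

/-- The cut-off weight. -/
noncomputable def base (k : ℕ) (z : ℂ) : ℝ := χ z * φk k z

lemma Params.φ_contDiff (P : Params) (n : ℕ∞) : ContDiff ℝ n P.φ := by
  unfold Params.φ
  refine (uf_contDiff n).comp ?_
  refine ContDiff.norm_sq ℝ ?_
  unfold Params.q
  fun_prop

lemma base_contDiff (k : ℕ) (n : ℕ∞) : ContDiff ℝ n (base k) := by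
  unfold base
  exact χ.contDiff.mul (Params.φ_contDiff _ n)

lemma base_compact (k : ℕ) : HasCompactSupport (base k) := by
  unfold base
  exact χ.hasCompactSupport.mul_right

lemma exists_bound (k i : ℕ) : ∃ C : ℝ, ∀ z, ‖iteratedFDeriv ℝ i (base k) z‖ ≤ C := by
  refine Continuous.bounded_above_of_compact_support ?_ ((base_compact k).iteratedFDeriv i)
  exact (base_contDiff k i).continuous_iteratedFDeriv (by norm_num)

lemma exists_m (k : ℕ) : ∃ m : ℕ, 32 * (k + 1) ≤ m ∧ 2 ^ k ≤ m ∧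
    ∀ i ≤ k, ∀ z, ‖iteratedFDeriv ℝ i (fun z => (4 * m : ℝ)⁻¹ • base k z) z‖ ≤ (1 / 2) ^ k := by
  choose C hC using exists_bound k
  set S : ℝ := ∑ i ∈ Finset.range (k + 1), |C i| with hS
  have hCS : ∀ i ≤ k, C i ≤ S := by
    intro i hi
    refine (le_abs_self _).trans ?_
    exact Finset.single_le_sum (f := fun i => |C i|) (fun j _ => abs_nonneg _)
      (Finset.mem_range.2 (by omega))
  obtain ⟨m1, hm1⟩ := exists_nat_ge (2 ^ k * S)
  refine ⟨max (max (32 * (k + 1)) (2 ^ k)) m1, ?_, ?_, ?_⟩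
  · exact (le_max_left _ _).trans (le_max_left _ _)
  · exact (le_max_right _ _).trans (le_max_left _ _)
  · intro i hi z
    set m := max (max (32 * (k + 1)) (2 ^ k)) m1 with hm
    have hm1' : (m1 : ℝ) ≤ m := by
      rw [hm]
      exact_mod_cast le_max_right _ _
    have hmpos : (0 : ℝ) < m := by
      have : 32 * (k + 1) ≤ m := (le_max_left _ _).trans (le_max_left _ _)
      have h2 : 0 < m := by omega
      exact_mod_cast h2
    have e := iteratedFDeriv_const_smul_apply' (𝕜 := ℝ) (i := i) (f := base k) (x := z)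
      (a := (4 * m : ℝ)⁻¹) ((base_contDiff k i).contDiffAt)
    rw [e, norm_smul, norm_inv, Real.norm_of_nonneg (by positivity)]
    have h1 : ‖iteratedFDeriv ℝ i (base k) z‖ ≤ S := (hC i z).trans (hCS i hi)
    have hS0 : 0 ≤ S := Finset.sum_nonneg fun j _ => abs_nonneg _
    rw [inv_mul_le_iff₀ (by positivity)]
    refine h1.trans ?_
    have h2 : 2 ^ k * S ≤ m := hm1.trans hm1'
    have h3 : S ≤ (1 / 2) ^ k * m := by
      rw [one_div, inv_pow, inv_mul_eq_div, le_div_iff₀ (by positivity)]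
      linarith
    have h4 : 0 ≤ (1 / 2 : ℝ) ^ k * m := by positivity
    linarith

/-- The exponents. -/
noncomputable def mk (k : ℕ) : ℕ := (exists_m k).choose

lemma mk_ge (k : ℕ) : 32 * (k + 1) ≤ mk k := (exists_m k).choose_spec.1

lemma mk_ge' (k : ℕ) : 2 ^ k ≤ mk k := (exists_m k).choose_spec.2.1

lemma mk_bound (k i : ℕ) (hi : i ≤ k) (z : ℂ) :
    ‖iteratedFDeriv ℝ i (fun z => (4 * mk k : ℝ)⁻¹ • base k z) z‖ ≤ (1 / 2) ^ k :=
  (exists_m k).choose_spec.2.2 i hi z

/-- The parameters of the `k`-th pair of wells. -/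
noncomputable def PP (k : ℕ) : Params := par k (mk k) (mk_ge k)

lemma mk_pos (k : ℕ) : (0 : ℝ) < mk k := by
  have := mk_ge k
  have h2 : 0 < mk k := by omega
  exact_mod_cast h2

/-- The terms of the weight. -/
noncomputable def term (k : ℕ) (z : ℂ) : ℝ := (4 * mk k : ℝ)⁻¹ • base k z

/-- The weight. -/
noncomputable def Ψ (z : ℂ) : ℝ := ∑' k, term k z

lemma summable_half : Summable fun k : ℕ => (1 / 2 : ℝ) ^ k :=
  summable_geometric_of_lt_one (by norm_num) (by norm_num)

lemma Ψ_contDiff (n : ℕ) : ContDiff ℝ n Ψ := by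
  unfold Ψ
  refine contDiff_tsum_of_eventually (v := fun _ k => (1 / 2 : ℝ) ^ k) ?_ ?_ ?_
  · intro k
    unfold term
    exact (contDiff_const (c := (4 * mk k : ℝ)⁻¹)).mul (base_contDiff k n)
  · intro k _
    exact summable_half
  · intro i _
    rw [Nat.cofinite_eq_atTop]
    filter_upwards [eventually_ge_atTop i] with k hk z
    exact mk_bound k i hk z

lemma term_eq {k : ℕ} {z : ℂ} (hz : ‖z‖ ≤ 1) : term k z = (PP k).ψ z := by
  unfold term base Params.ψ
  rw [χ_one hz, one_mul]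
  have : (PP k).φ z = φk k z := rfl
  rw [this, smul_eq_mul, inv_mul_eq_div]
  congr 1
  unfold Params.N
  push_cast
  rfl

lemma norm_term_le (k : ℕ) (z : ℂ) : ‖term k z‖ ≤ (1 / 2) ^ k := by
  have := mk_bound k 0 (Nat.zero_le _) z
  rwa [norm_iteratedFDeriv_zero] at this

lemma term_nonneg (k : ℕ) (z : ℂ) : 0 ≤ term k z := by
  unfold term base
  rw [smul_eq_mul]
  have := mk_pos k
  exact mul_nonneg (by positivity) (mul_nonneg χ.nonneg (uf_nonneg _))

lemma summable_term (z : ℂ) : Summable fun k => term k z :=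
  Summable.of_norm_bounded summable_half fun k => norm_term_le k z

lemma Ψ_nonneg (z : ℂ) : 0 ≤ Ψ z := tsum_nonneg fun k => term_nonneg k z

end Pool.Agent.Squeeze
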