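import Mathlib
import Pool.Agent.Helper23_Squeeze.Seq
import Pool.Agent.Helper23_Squeeze.Inverse

/-! The domain: a bounded connected open set with smooth boundary. -/

set_option autoImplicit false
open Set Metric Filter Topology

namespace Pool.Agent.Squeeze

/-- The cap function. -/
noncomputable def cap (z : ℂ) : ℝ := uf (‖z‖ ^ 2) / m0

/-- The defining function. -/
noncomputable def rho (x : E2) : ℝ := ‖x 1‖ ^ 2 * Real.exp (2 * Ψ (x 0)) + cap (x 0) - 1

/-- The domain. -/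
def Dom : Set E2 := {x | rho x < 0}

lemma cap_contDiff (n : ℕ) : ContDiff ℝ n cap := by
  unfold cap
  refine ContDiff.div_const ((uf_contDiff n).comp ?_) _
  exact contDiff_norm_sq ℝ

lemma cap_nonneg (z : ℂ) : 0 ≤ cap z := div_nonneg (uf_nonneg _) m0_pos.le

lemma cap_mono {z w : ℂ} (h : ‖z‖ ≤ ‖w‖) : cap z ≤ cap w := by
  unfold cap
  have := m0_pos
  have h1 : uf (‖z‖ ^ 2) ≤ uf (‖w‖ ^ 2) := uf_mono (pow_le_pow_left₀ (norm_nonneg _) h 2)
  gcongr

lemma norm_lt_one_of_cap {z : ℂ} (h : cap z < 1) : ‖z‖ < 1 := by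
  by_contra hcon
  push Not at hcon
  unfold cap at h
  rw [div_lt_one m0_pos] at h
  have h1 : uf 1 ≤ uf (‖z‖ ^ 2) := uf_mono (by nlinarith)
  unfold m0 at h
  linarith

/-- A coordinate as a real-linear map. -/
noncomputable def coordR (i : Fin 2) : E2 →L[ℝ] ℂ :=
  (EuclideanSpace.proj i : E2 →L[ℂ] ℂ).restrictScalars ℝ

lemma coordR_apply (i : Fin 2) (x : E2) : coordR i x = x i := rfl

lemma rho_contDiff (n : ℕ) : ContDiff ℝ n rho := by
  have h0 : ContDiff ℝ n (fun x : E2 => x 0) := (coordR 0).contDiff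
  have h1 : ContDiff ℝ n (fun x : E2 => x 1) := (coordR 1).contDiff
  unfold rho
  have e1 : ContDiff ℝ n (fun x : E2 => ‖x 1‖ ^ 2) := h1.norm_sq ℝ
  have e2 : ContDiff ℝ n (fun x : E2 => Real.exp (2 * Ψ (x 0))) :=
    (contDiff_const.mul ((Ψ_contDiff n).comp h0)).exp
  have e3 : ContDiff ℝ n (fun x : E2 => cap (x 0)) := (cap_contDiff n).comp h0
  exact ((e1.mul e2).add e3).sub contDiff_const

lemma rho_continuous : Continuous rho := (rho_contDiff 0).continuous

lemma isOpen_Dom : IsOpen Dom := isOpen_lt rho_continuous continuous_const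

lemma mem_Dom_iff {x : E2} :
    x ∈ Dom ↔ ‖x 1‖ ^ 2 * Real.exp (2 * Ψ (x 0)) + cap (x 0) < 1 := by
  unfold Dom rho
  simp only [mem_ofPred_eq]
  constructor <;> intro h <;> linarith

lemma cap_lt_of_mem {x : E2} (hx : x ∈ Dom) : cap (x 0) < 1 := by
  rw [mem_Dom_iff] at hx
  have : 0 ≤ ‖x 1‖ ^ 2 * Real.exp (2 * Ψ (x 0)) := by positivity
  linarith

lemma norm_lt_of_mem {x : E2} (hx : x ∈ Dom) : ‖x 0‖ < 1 ∧ ‖x 1‖ < 1 := by
  refine ⟨norm_lt_one_of_cap (cap_lt_of_mem hx), ?_⟩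
  rw [mem_Dom_iff] at hx
  have h1 := cap_nonneg (x 0)
  have h2 : 1 ≤ Real.exp (2 * Ψ (x 0)) := Real.one_le_exp (by linarith [Ψ_nonneg (x 0)])
  have h3 : ‖x 1‖ ^ 2 < 1 := by nlinarith [sq_nonneg ‖x 1‖]
  by_contra hcon
  push Not at hcon
  nlinarith

lemma isBounded_Dom : Bornology.IsBounded Dom := by
  rw [isBounded_iff_forall_norm_le]
  refine ⟨2, fun x hx => ?_⟩
  obtain ⟨h0, h1⟩ := norm_lt_of_mem hx
  rw [EuclideanSpace.norm_eq, Fin.sum_univ_two]
  have : ‖x 0‖ ^ 2 + ‖x 1‖ ^ 2 ≤ 2 ^ 2 := by nlinarith [norm_nonneg (x 0), norm_nonneg (x 1)]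
  calc √(‖x 0‖ ^ 2 + ‖x 1‖ ^ 2) ≤ √(2 ^ 2) := Real.sqrt_le_sqrt this
    _ = 2 := by norm_num

lemma zero_mem_Dom : (0 : E2) ∈ Dom := by
  rw [mem_Dom_iff]
  simp [cap, uf_zero (show (0 : ℝ) ≤ 1 / 2 by norm_num)]

lemma isConnected_Dom : IsConnected Dom := by
  refine ⟨⟨0, zero_mem_Dom⟩, ?_⟩
  refine isPreconnected_of_forall (0 : E2) fun y hy => ?_
  set y0 : E2 := toPair.symm (y 0, 0) with hy0
  have hy00 : y0 0 = y 0 := toPair_symm_apply_zero _
  have hy01 : y0 1 = 0 := toPair_symm_apply_one _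
  refine ⟨segment ℝ 0 y0 ∪ segment ℝ y0 y, ?_, ?_, ?_, ?_⟩
  · rintro x (hx | hx)
    · rw [segment_eq_image] at hx
      obtain ⟨t, ht, rfl⟩ := hx
      simp only [smul_zero, zero_add]
      rw [mem_Dom_iff]
      have e0 : (t • y0) 0 = t • y 0 := by rw [PiLp.smul_apply, hy00]
      have e1 : (t • y0) 1 = 0 := by rw [PiLp.smul_apply, hy01, smul_zero]
      rw [e0, e1, norm_zero]
      have : cap (t • y 0) ≤ cap (y 0) := by
        refine cap_mono ?_
        rw [norm_smul, Real.norm_of_nonneg ht.1]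
        nlinarith [norm_nonneg (y 0), ht.2]
      have h2 := cap_lt_of_mem hy
      rw [zero_pow two_ne_zero, zero_mul, zero_add]
      exact this.trans_lt h2
    · rw [segment_eq_image] at hx
      obtain ⟨t, ht, rfl⟩ := hx
      rw [mem_Dom_iff] at hy ⊢
      have e0 : ((1 - t) • y0 + t • y) 0 = y 0 := by
        rw [PiLp.add_apply, PiLp.smul_apply, PiLp.smul_apply, hy00, ← add_smul]
        simp
      have e1 : ((1 - t) • y0 + t • y) 1 = t • y 1 := by
        rw [PiLp.add_apply, PiLp.smul_apply, PiLp.smul_apply, hy01, smul_zero, zero_add]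
      rw [e0, e1, norm_smul, Real.norm_of_nonneg ht.1]
      have h1 : (t * ‖y 1‖) ^ 2 ≤ ‖y 1‖ ^ 2 := by
        refine pow_le_pow_left₀ (mul_nonneg ht.1 (norm_nonneg _)) ?_ 2
        nlinarith [norm_nonneg (y 1), ht.2]
      have h2 : (t * ‖y 1‖) ^ 2 * Real.exp (2 * Ψ (y 0)) ≤ ‖y 1‖ ^ 2 * Real.exp (2 * Ψ (y 0)) := by
        gcongr
      linarith
  · exact Or.inl (left_mem_segment ℝ _ _)
  · exact Or.inr (right_mem_segment ℝ _ _)
  · refine IsPreconnected.union y0 (right_mem_segment ℝ _ _) (left_mem_segment ℝ _ _) ?_ ?_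
    · exact (convex_segment _ _).isPreconnected
    · exact (convex_segment _ _).isPreconnected

lemma rho_grad {x : E2} (hx : rho x = 0) : fderiv ℝ rho x ≠ 0 := by
  intro h0
  have hd : HasFDerivAt rho (0 : E2 →L[ℝ] ℝ) x := by
    rw [← h0]
    exact ((rho_contDiff 1).differentiable (by norm_num) x).hasFDerivAt
  -- derivative along any line is zero
  have hline : ∀ v : E2, HasDerivAt (fun s : ℝ => rho (x + s • v)) 0 0 := by
    intro v
    have h1 : HasDerivAt (fun s : ℝ => x + s • v) v 0 := by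
      simpa using! ((hasDerivAt_id (0 : ℝ)).smul_const v).const_add x
    have h2 : HasFDerivAt rho (0 : E2 →L[ℝ] ℝ) (x + (0 : ℝ) • v) := by
      rw [zero_smul, add_zero]
      exact hd
    simpa using! h2.comp_hasDerivAt (0 : ℝ) h1
  by_cases hx1 : x 1 = 0
  · set v : E2 := toPair.symm (x 0, 0) with hv
    have hv0 : v 0 = x 0 := toPair_symm_apply_zero _
    have hv1 : v 1 = 0 := toPair_symm_apply_one _
    have e : (fun s : ℝ => rho (x + s • v)) = fun s : ℝ => uf ((1 + s) ^ 2 * ‖x 0‖ ^ 2) / m0 - 1 := by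
      funext s
      unfold rho cap
      have e0 : (x + s • v) 0 = (1 + s) • x 0 := by
        rw [PiLp.add_apply, PiLp.smul_apply, hv0, add_smul, one_smul]
      have e1 : (x + s • v) 1 = 0 := by
        rw [PiLp.add_apply, PiLp.smul_apply, hv1, hx1, smul_zero, add_zero]
      rw [e0, e1, norm_zero, norm_smul, mul_pow, Real.norm_eq_abs, sq_abs]
      norm_num
    have h1 := hline v
    rw [e] at h1
    have h2 : HasDerivAt (fun s : ℝ => uf ((1 + s) ^ 2 * ‖x 0‖ ^ 2) / m0 - 1)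
        (gf (‖x 0‖ ^ 2) * (2 * ‖x 0‖ ^ 2) / m0) 0 := by
      have e3 : HasDerivAt (fun s : ℝ => (1 + s) ^ 2 * ‖x 0‖ ^ 2) (2 * ‖x 0‖ ^ 2) 0 := by
        have := (((hasDerivAt_id (0 : ℝ)).const_add 1).pow 2).mul_const (‖x 0‖ ^ 2)
        simpa using! this
      have e4 : HasDerivAt uf (gf (‖x 0‖ ^ 2)) ((1 + 0) ^ 2 * ‖x 0‖ ^ 2) := by
        rw [add_zero, one_pow, one_mul]
        exact uf_hasDerivAt _
      exact ((e4.comp (0 : ℝ) e3).div_const m0).sub_const 1
    have h3 := h2.unique h1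
    have hm := m0_pos
    have hcap : uf (‖x 0‖ ^ 2) = m0 := by
      unfold rho cap at hx
      rw [hx1, norm_zero] at hx
      have : uf (‖x 0‖ ^ 2) / m0 = 1 := by
        norm_num at hx
        linarith
      rwa [div_eq_one_iff_eq hm.ne'] at this
    have hgt : 1 / 2 < ‖x 0‖ ^ 2 := by
      by_contra hcon
      push Not at hcon
      rw [uf_zero hcon] at hcap
      linarith
    have hth := th_pos hgt
    have : gf (‖x 0‖ ^ 2) * (2 * ‖x 0‖ ^ 2) / m0 = th (‖x 0‖ ^ 2) / m0 := by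
      unfold gf
      have : 2 * ‖x 0‖ ^ 2 ≠ 0 := by linarith
      rw [div_mul_cancel₀ _ this]
    rw [this] at h3
    have : 0 < th (‖x 0‖ ^ 2) / m0 := div_pos hth hm
    linarith
  · set v : E2 := toPair.symm (0, x 1) with hv
    have hv0 : v 0 = 0 := toPair_symm_apply_zero _
    have hv1 : v 1 = x 1 := toPair_symm_apply_one _
    have e : (fun s : ℝ => rho (x + s • v)) =
        fun s : ℝ => (1 + s) ^ 2 * (‖x 1‖ ^ 2 * Real.exp (2 * Ψ (x 0))) + (cap (x 0) - 1) := by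
      funext s
      unfold rho
      have e0 : (x + s • v) 0 = x 0 := by
        rw [PiLp.add_apply, PiLp.smul_apply, hv0, smul_zero, add_zero]
      have e1 : (x + s • v) 1 = (1 + s) • x 1 := by
        rw [PiLp.add_apply, PiLp.smul_apply, hv1, add_smul, one_smul]
      rw [e0, e1, norm_smul, mul_pow, Real.norm_eq_abs, sq_abs]
      ring
    have h1 := hline v
    rw [e] at h1
    have h2 : HasDerivAt (fun s : ℝ => (1 + s) ^ 2 * (‖x 1‖ ^ 2 * Real.exp (2 * Ψ (x 0))) +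
        (cap (x 0) - 1)) (2 * (‖x 1‖ ^ 2 * Real.exp (2 * Ψ (x 0)))) 0 := by
      have := ((((hasDerivAt_id (0 : ℝ)).const_add 1).pow 2).mul_const
        (‖x 1‖ ^ 2 * Real.exp (2 * Ψ (x 0)))).add_const (cap (x 0) - 1)
      simpa using! this
    have h3 := h2.unique h1
    have h4 : 0 < ‖x 1‖ := norm_pos_iff.2 hx1
    have : 0 < 2 * (‖x 1‖ ^ 2 * Real.exp (2 * Ψ (x 0))) := by positivity
    linarith

end Pool.Agent.Squeeze
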