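import Mathlib
import Pool.Agent.Helper23_Squeeze.Dom

/-! Holomorphic convexity of the domain. -/

set_option autoImplicit false
open Set Metric Filter Topology

namespace Pool.Agent.Squeeze

lemma le_of_pow_bound {x y a A : ℝ} (hy : 0 ≤ y) (ha : 0 < a)
    (h : ∀ M : ℕ, 1 ≤ M → x ^ M * a ≤ A * y ^ M) : x ≤ y := by
  by_contra hcon
  push Not at hcon
  rcases hy.eq_or_lt with h0 | h0
  · have h1 := h 1 le_rfl
    rw [← h0, pow_one, pow_one, mul_zero] at h1
    rw [← h0] at hcon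
    nlinarith
  · have h1 : 1 < x / y := by rwa [one_lt_div h0]
    obtain ⟨M, hM⟩ := pow_unbounded_of_one_lt (A / a) h1
    have h2 : A / a < (x / y) ^ (M + 1) := by
      refine hM.trans_le ?_
      exact pow_le_pow_right₀ h1.le (Nat.le_succ M)
    have h3 := h (M + 1) (by omega)
    rw [div_pow, div_lt_div_iff₀ ha (by positivity)] at h2
    linarith

lemma pow_ceil_le {x s : ℝ} (hx : 0 ≤ x) (hs : 0 ≤ s) {M : ℕ} (hM : 1 ≤ M) :
    x ^ ⌈(M : ℝ) * s⌉₊ ≤ (x ^ s) ^ M * max 1 x := by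
  have hMs : 0 ≤ (M : ℝ) * s := by positivity
  rcases hx.eq_or_lt with h0 | h0
  · rw [← h0]
    rcases hs.eq_or_lt with h1 | h1
    · rw [← h1]
      simp
    · have : ⌈(M : ℝ) * s⌉₊ ≠ 0 := by
        rw [Nat.ne_zero_iff_zero_lt, Nat.ceil_pos]
        have : (0 : ℝ) < M := by exact_mod_cast hM
        positivity
      rw [zero_pow this]
      positivity
  · have h1 : x ^ ⌈(M : ℝ) * s⌉₊ = (x ^ s) ^ M * x ^ ((⌈(M : ℝ) * s⌉₊ : ℝ) - M * s) := by
      rw [← Real.rpow_natCast, ← Real.rpow_natCast, ← Real.rpow_mul hx, ← Real.rpow_add h0]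
      congr 1
      ring
    rw [h1]
    gcongr
    have h2 : 0 ≤ (⌈(M : ℝ) * s⌉₊ : ℝ) - M * s := sub_nonneg.2 (Nat.le_ceil _)
    have h3 : (⌈(M : ℝ) * s⌉₊ : ℝ) - M * s ≤ 1 := by
      have := Nat.ceil_lt_add_one hMs
      linarith
    rcases le_total 1 x with h4 | h4
    · refine (Real.rpow_le_rpow_of_exponent_le h4 h3).trans ?_
      rw [Real.rpow_one]
      exact le_max_right _ _
    · exact (Real.rpow_le_one hx h4 h2).trans (le_max_left _ _)

lemma le_pow_ceil {x s : ℝ} (hx : 0 < x) (hs : 0 ≤ s) {M : ℕ} :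
    (x ^ s) ^ M * min 1 x ≤ x ^ ⌈(M : ℝ) * s⌉₊ := by
  have hMs : 0 ≤ (M : ℝ) * s := by positivity
  have h1 : x ^ ⌈(M : ℝ) * s⌉₊ = (x ^ s) ^ M * x ^ ((⌈(M : ℝ) * s⌉₊ : ℝ) - M * s) := by
    rw [← Real.rpow_natCast, ← Real.rpow_natCast, ← Real.rpow_mul hx.le, ← Real.rpow_add hx]
    congr 1
    ring
  rw [h1]
  gcongr
  have h2 : 0 ≤ (⌈(M : ℝ) * s⌉₊ : ℝ) - M * s := sub_nonneg.2 (Nat.le_ceil _)
  have h3 : (⌈(M : ℝ) * s⌉₊ : ℝ) - M * s ≤ 1 := by
    have := Nat.ceil_lt_add_one hMs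
    linarith
  rcases le_total 1 x with h4 | h4
  · exact (min_le_left _ _).trans (Real.one_le_rpow h4 h2)
  · refine (min_le_right _ _).trans ?_
    have := Real.rpow_le_rpow_of_exponent_ge hx h4 h3
    rwa [Real.rpow_one] at this

/-- Membership in the holomorphic hull. -/
def InHull (K : Set E2) (x : E2) : Prop :=
  ∀ f : E2 → ℂ, DifferentiableOn ℂ f Dom → ∀ c : ℝ, (∀ w ∈ K, ‖f w‖ ≤ c) → ‖f x‖ ≤ c

lemma diff_coord (i : Fin 2) : Differentiable ℂ (fun x : E2 => x i) :=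
  (EuclideanSpace.proj i : E2 →L[ℂ] ℂ).differentiable

lemma diff_prod (ι : Finset ℕ) {f : ℕ → E2 → ℂ} (hf : ∀ i, Differentiable ℂ (f i)) :
    Differentiable ℂ (fun y => ∏ i ∈ ι, f i y) := by
  induction ι using Finset.induction_on with
  | empty => simp
  | insert i t hi ih =>
    simp only [Finset.prod_insert hi]
    exact (hf i).mul ih

/-- The basic inequality for points of the hull. -/
lemma hull_ineq {K : Set E2} {x : E2} (hx : InHull K x) (ι : Finset ℕ) (b : ℕ → ℂ → ℂ)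
    (hb : ∀ i, Differentiable ℂ (b i)) (s : ℕ → ℝ) (hs : ∀ i, 0 ≤ s i)
    (hzero : ∀ i ∈ ι, b i (x 0) = 0 → s i = 0) {R : ℝ}
    (hR : ∀ w ∈ K, ∀ i ∈ ι, ‖b i (w 0)‖ ≤ R) {c : ℝ} (hc : 0 ≤ c)
    (hK : ∀ w ∈ K, ‖w 1‖ * ∏ i ∈ ι, ‖b i (w 0)‖ ^ (s i) ≤ c) :
    ‖x 1‖ * ∏ i ∈ ι, ‖b i (x 0)‖ ^ (s i) ≤ c := by
  classical
  set a : ℝ := ∏ i ∈ ι, (if b i (x 0) = 0 then 1 else min 1 ‖b i (x 0)‖) with ha
  have hapos : 0 < a := by
    refine Finset.prod_pos fun i _ => ?_
    split_ifs with h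
    · norm_num
    · exact lt_min one_pos (norm_pos_iff.2 h)
  refine le_of_pow_bound (a := a) (A := ∏ _i ∈ ι, max 1 R) hc hapos ?_
  · intro M hM
    set F : E2 → ℂ := fun y => (y 1) ^ M * ∏ i ∈ ι, (b i (y 0)) ^ ⌈(M : ℝ) * s i⌉₊ with hF
    have hFd : DifferentiableOn ℂ F Dom := by
      refine Differentiable.differentiableOn ?_
      have e1 : Differentiable ℂ (fun y : E2 => (y 1) ^ M) := (diff_coord 1).pow M
      have e2 : Differentiable ℂ (fun y : E2 => ∏ i ∈ ι, (b i (y 0)) ^ ⌈(M : ℝ) * s i⌉₊) :=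
        diff_prod ι fun i => ((hb i).comp (diff_coord 0)).pow _
      exact e1.mul e2
    have h1 := hx F hFd (c ^ M * ∏ _i ∈ ι, max 1 R) (by
      intro w hw
      have h2 : ‖F w‖ ≤ ‖w 1‖ ^ M * ∏ i ∈ ι, ((‖b i (w 0)‖ ^ (s i)) ^ M * max 1 R) := by
        simp only [hF]
        rw [norm_mul, norm_pow, norm_prod]
        gcongr with i hi
        rw [norm_pow]
        refine (pow_ceil_le (norm_nonneg _) (hs i) hM).trans ?_
        gcongr
        exact hR w hw i hi
      refine h2.trans ?_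
      rw [Finset.prod_mul_distrib, Finset.prod_pow, ← mul_assoc, ← mul_pow]
      have h3 : 0 ≤ ∏ _i ∈ ι, max 1 R := Finset.prod_nonneg fun i _ => by positivity
      have h4 : 0 ≤ ‖w 1‖ * ∏ i ∈ ι, ‖b i (w 0)‖ ^ (s i) :=
        mul_nonneg (norm_nonneg _) (Finset.prod_nonneg fun i _ => by positivity)
      gcongr
      exact hK w hw)
    have h5 : ‖x 1‖ ^ M * ∏ i ∈ ι, ((‖b i (x 0)‖ ^ (s i)) ^ M *
        (if b i (x 0) = 0 then 1 else min 1 ‖b i (x 0)‖)) ≤ ‖F x‖ := by
      simp only [hF]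
      rw [norm_mul, norm_pow, norm_prod]
      refine mul_le_mul_of_nonneg_left ?_ (by positivity)
      refine Finset.prod_le_prod (fun i _ => ?_) fun i hi => ?_
      · have : (0 : ℝ) ≤ (if b i (x 0) = 0 then 1 else min 1 ‖b i (x 0)‖) := by
          split_ifs
          · norm_num
          · exact le_min zero_le_one (norm_nonneg _)
        positivity
      · rw [norm_pow]
        split_ifs with h
        · rw [hzero i hi h, h]
          simp
        · exact le_pow_ceil (norm_pos_iff.2 h) (hs i)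
    rw [Finset.prod_mul_distrib, Finset.prod_pow, ← mul_assoc, ← mul_pow] at h5
    rw [mul_comm (∏ _i ∈ ι, max 1 R)]
    exact h5.trans h1

/-- Supporting inequality for the cap. -/
lemma cap_support {z₀ : ℂ} (hz₀ : cap z₀ < 1) : ∃ τ : ℝ, 0 ≤ τ ∧ (z₀ = 0 → τ = 0) ∧
    ∀ z, cap z < 1 → √(1 - cap z) * ‖z‖ ^ τ ≤ √(1 - cap z₀) * ‖z₀‖ ^ τ := by
  have hm := m0_pos
  have hD : 0 < 1 - cap z₀ := by linarith
  refine ⟨th (‖z₀‖ ^ 2) / (2 * m0 * (1 - cap z₀)), div_nonneg (th_nonneg _) (by positivity), ?_, ?_⟩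
  · rintro rfl
    rw [th_zero (by norm_num), zero_div]
  · intro z hz
    have hD' : 0 < 1 - cap z := by linarith
    rcases le_or_gt (‖z₀‖ ^ 2) (1 / 2) with h | h
    · rw [th_zero h, zero_div, Real.rpow_zero, Real.rpow_zero, mul_one, mul_one]
      have : cap z₀ = 0 := by
        unfold cap
        rw [uf_zero h, zero_div]
      rw [this]
      exact Real.sqrt_le_sqrt (by linarith [cap_nonneg z])
    · have hth := th_pos h
      set τ := th (‖z₀‖ ^ 2) / (2 * m0 * (1 - cap z₀)) with hτ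
      have hτpos : 0 < τ := by positivity
      have hz₀pos : 0 < ‖z₀‖ := by
        by_contra hcon
        have : ‖z₀‖ = 0 := le_antisymm (not_lt.1 hcon) (norm_nonneg _)
        rw [this] at h
        norm_num at h
      rcases (norm_nonneg z).eq_or_lt with h0 | h0
      · rw [← h0, Real.zero_rpow hτpos.ne', mul_zero]
        positivity
      · have h1 := uf_support (pow_pos hz₀pos 2) (pow_pos h0 2)
        rw [Real.log_pow, Real.log_pow] at h1
        push_cast at h1
        have h2 : cap z - cap z₀ ≥ 2 * τ * (1 - cap z₀) * (Real.log ‖z‖ - Real.log ‖z₀‖) := by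
          have e : 2 * τ * (1 - cap z₀) = th (‖z₀‖ ^ 2) / m0 := by
            rw [hτ]
            field_simp
          rw [e]
          unfold cap
          rw [← sub_div, div_mul_eq_mul_div, ge_iff_le]
          gcongr
          linarith
        have h3 : Real.log ((1 - cap z) / (1 - cap z₀)) ≤ (1 - cap z) / (1 - cap z₀) - 1 :=
          Real.log_le_sub_one_of_pos (by positivity)
        have h4 : (1 - cap z) / (1 - cap z₀) - 1 ≤ -(2 * τ * (Real.log ‖z‖ - Real.log ‖z₀‖)) := by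
          rw [div_sub_one hD.ne', div_le_iff₀ hD]
          linarith
        rw [Real.log_div hD'.ne' hD.ne'] at h3
        rw [Real.sqrt_eq_rpow, Real.sqrt_eq_rpow, Real.rpow_def_of_pos hD', Real.rpow_def_of_pos hD,
          Real.rpow_def_of_pos h0, Real.rpow_def_of_pos hz₀pos, ← Real.exp_add, ← Real.exp_add,
          Real.exp_le_exp]
        linarith

/-- Supporting inequality for the weights. -/
lemma ψ_support (P : Params) (z₀ : ℂ) : ∃ s : ℝ, 0 ≤ s ∧ (P.q z₀ = 0 → s = 0) ∧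
    ∀ z, Real.exp (P.ψ z₀) * ‖P.q z‖ ^ s ≤ Real.exp (P.ψ z) * ‖P.q z₀‖ ^ s := by
  have hN := P.N_pos
  refine ⟨th (‖P.q z₀‖ ^ 2) / P.N, div_nonneg (th_nonneg _) hN.le, ?_, ?_⟩
  · intro h
    rw [h, norm_zero, th_zero (by norm_num), zero_div]
  · intro z
    have h1 := uf_support_norm (norm_nonneg (P.q z₀)) (norm_nonneg (P.q z))
    have h2 := Real.rpow_le_rpow (by positivity) h1 (one_div_nonneg.2 hN.le)
    rw [Real.mul_rpow (Real.exp_pos _).le (by positivity),
      Real.mul_rpow (Real.exp_pos _).le (by positivity), ← Real.rpow_mul (norm_nonneg _),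
      ← Real.rpow_mul (norm_nonneg _), ← Real.exp_mul, ← Real.exp_mul, mul_one_div, mul_one_div,
      mul_one_div] at h2
    exact h2

/-- The family of polynomials. -/
noncomputable def bfam : ℕ → ℂ → ℂ
  | 0 => fun z => z
  | (j + 1) => (PP j).q

lemma bfam_diff (i : ℕ) : Differentiable ℂ (bfam i) := by
  cases i with
  | zero => exact differentiable_id
  | succ j =>
    unfold bfam Params.q
    fun_prop

lemma hull_le {K : Set E2} (hKc : IsCompact K) (hKΩ : K ⊆ Dom) {q : ℝ} (hq0 : 0 ≤ q)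
    (hq : ∀ w ∈ K, ‖w 1‖ * Real.exp (Ψ (w 0)) ≤ q * √(1 - cap (w 0))) {x : E2} (hxD : x ∈ Dom)
    (hx : InHull K x) : ‖x 1‖ * Real.exp (Ψ (x 0)) ≤ q * √(1 - cap (x 0)) := by
  obtain ⟨τ, hτ0, hτz, hτ⟩ := cap_support (cap_lt_of_mem hxD)
  choose σ hσ0 hσz hσ using fun j => ψ_support (PP j) (x 0)
  set s : ℕ → ℝ := fun i => Nat.casesOn i τ σ with hs
  have hx0 := norm_lt_of_mem hxD
  have hDx : 0 < √(1 - cap (x 0)) := Real.sqrt_pos.2 (by linarith [cap_lt_of_mem hxD])
  have key : ∀ J : ℕ, ‖x 1‖ * Real.exp (∑ j ∈ Finset.range J, term j (x 0)) ≤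
      q * √(1 - cap (x 0)) := by
    intro J
    set S : ℂ → ℝ := fun z => ∏ i ∈ Finset.range (J + 1), ‖bfam i z‖ ^ (s i) with hS
    have hSeq : ∀ z, S z = (∏ j ∈ Finset.range J, ‖(PP j).q z‖ ^ (σ j)) * ‖z‖ ^ τ := by
      intro z
      simp only [hS]
      rw [Finset.prod_range_succ']
      rfl
    have hSpos : 0 < S (x 0) := by
      rw [hSeq]
      refine mul_pos (Finset.prod_pos fun j _ => ?_) ?_
      · by_cases h : (PP j).q (x 0) = 0
        · rw [hσz j h, Real.rpow_zero]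
          norm_num
        · exact Real.rpow_pos_of_pos (norm_pos_iff.2 h) _
      · by_cases h : x 0 = 0
        · rw [hτz h, Real.rpow_zero]
          norm_num
        · exact Real.rpow_pos_of_pos (norm_pos_iff.2 h) _
    set Ex : ℂ → ℝ := fun z => Real.exp (∑ j ∈ Finset.range J, term j z) with hEx
    have hExprod : ∀ z, Ex z = ∏ j ∈ Finset.range J, Real.exp (term j z) := fun z =>
      Real.exp_sum _ _
    -- combined supporting inequality
    have hsupp : ∀ z, ‖z‖ ≤ 1 → cap z < 1 →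
        Ex (x 0) * √(1 - cap z) * S z ≤ Ex z * √(1 - cap (x 0)) * S (x 0) := by
      intro z hz hcz
      have h1 : (∏ j ∈ Finset.range J, Real.exp (term j (x 0))) *
          (∏ j ∈ Finset.range J, ‖(PP j).q z‖ ^ (σ j)) ≤
          (∏ j ∈ Finset.range J, Real.exp (term j z)) *
          (∏ j ∈ Finset.range J, ‖(PP j).q (x 0)‖ ^ (σ j)) := by
        rw [← Finset.prod_mul_distrib, ← Finset.prod_mul_distrib]
        refine Finset.prod_le_prod (fun j _ => by positivity) fun j _ => ?_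
        rw [term_eq hx0.1.le, term_eq hz]
        exact hσ j z
      have h2 := hτ z hcz
      rw [hExprod, hExprod, hSeq, hSeq]
      have h3 := mul_le_mul h1 h2 (by positivity) (by positivity)
      calc _ = (∏ j ∈ Finset.range J, Real.exp (term j (x 0))) *
          (∏ j ∈ Finset.range J, ‖(PP j).q z‖ ^ (σ j)) * (√(1 - cap z) * ‖z‖ ^ τ) := by ring
        _ ≤ _ := h3
        _ = _ := by ring
    -- a bound for the polynomials on `K`
    obtain ⟨R, hR⟩ : ∃ R : ℝ, ∀ w ∈ K, ∀ i ∈ Finset.range (J + 1), ‖bfam i (w 0)‖ ≤ R := by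
      have h1 : ∀ i, ∃ R : ℝ, ∀ w ∈ K, ‖bfam i (w 0)‖ ≤ R := by
        intro i
        have hc : ContinuousOn (fun w : E2 => bfam i (w 0)) K :=
          ((bfam_diff i).comp (diff_coord 0)).continuous.continuousOn
        exact hKc.exists_bound_of_continuousOn hc
      choose R hR using h1
      refine ⟨∑ i ∈ Finset.range (J + 1), |R i|, fun w hw i hi => ?_⟩
      exact ((hR i w hw).trans (le_abs_self _)).trans
        (Finset.single_le_sum (f := fun i => |R i|) (fun j _ => abs_nonneg _) hi)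
    have hExx : 0 < Ex (x 0) := Real.exp_pos _
    have hineq := hull_ineq hx (Finset.range (J + 1)) bfam bfam_diff s (by
        intro i
        cases i with
        | zero => exact hτ0
        | succ j => exact hσ0 j) (by
        intro i _ hi
        cases i with
        | zero => exact hτz hi
        | succ j => exact hσz j hi) hR
      (c := q * S (x 0) * √(1 - cap (x 0)) / Ex (x 0)) (by positivity) (by
        intro w hw
        have hwD := hKΩ hw
        have hw1 := norm_lt_of_mem hwD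
        have hDw : 0 < √(1 - cap (w 0)) := Real.sqrt_pos.2 (by linarith [cap_lt_of_mem hwD])
        rw [le_div_iff₀ hExx]
        have h1 := hsupp (w 0) hw1.1.le (cap_lt_of_mem hwD)
        have h2 : ‖w 1‖ * Ex (w 0) ≤ q * √(1 - cap (w 0)) := by
          refine le_trans ?_ (hq w hw)
          refine mul_le_mul_of_nonneg_left (Real.exp_le_exp.2 ?_) (norm_nonneg _)
          exact (summable_term (w 0)).sum_le_tsum _ (fun j _ => term_nonneg j _)
        have h3 : √(1 - cap (w 0)) * (‖w 1‖ * S (w 0) * Ex (x 0)) ≤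
            √(1 - cap (w 0)) * (q * S (x 0) * √(1 - cap (x 0))) := by
          calc √(1 - cap (w 0)) * (‖w 1‖ * S (w 0) * Ex (x 0))
              = ‖w 1‖ * (Ex (x 0) * √(1 - cap (w 0)) * S (w 0)) := by ring
            _ ≤ ‖w 1‖ * (Ex (w 0) * √(1 - cap (x 0)) * S (x 0)) :=
                mul_le_mul_of_nonneg_left h1 (norm_nonneg _)
            _ = (‖w 1‖ * Ex (w 0)) * (√(1 - cap (x 0)) * S (x 0)) := by ring
            _ ≤ (q * √(1 - cap (w 0))) * (√(1 - cap (x 0)) * S (x 0)) :=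
                mul_le_mul_of_nonneg_right h2 (by positivity)
            _ = _ := by ring
        exact le_of_mul_le_mul_left h3 hDw)
    rw [le_div_iff₀ hExx] at hineq
    have h4 : S (x 0) * (‖x 1‖ * Ex (x 0)) ≤ S (x 0) * (q * √(1 - cap (x 0))) := by
      calc S (x 0) * (‖x 1‖ * Ex (x 0)) = ‖x 1‖ * S (x 0) * Ex (x 0) := by ring
        _ ≤ q * S (x 0) * √(1 - cap (x 0)) := hineq
        _ = _ := by ring
    exact le_of_mul_le_mul_left h4 hSpos
  have hlim : Tendsto (fun J : ℕ => ‖x 1‖ * Real.exp (∑ j ∈ Finset.range J, term j (x 0))) atTop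
      (𝓝 (‖x 1‖ * Real.exp (Ψ (x 0)))) := by
    refine Tendsto.const_mul _ ?_
    exact (Real.continuous_exp.tendsto _).comp (summable_term (x 0)).hasSum.tendsto_sum_nat
  exact le_of_tendsto' hlim key

/-- Holomorphic convexity. -/
theorem holo_convex (K : Set E2) (hK : IsCompact K) (hKΩ : K ⊆ Dom) :
    IsCompact {z ∈ Dom | ∀ f : E2 → ℂ, DifferentiableOn ℂ f Dom →
      ∀ c : ℝ, (∀ w ∈ K, ‖f w‖ ≤ c) → ‖f z‖ ≤ c} := by
  rcases K.eq_empty_or_nonempty with rfl | hne
  · have : {z ∈ Dom | ∀ f : E2 → ℂ, DifferentiableOn ℂ f Dom →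
      ∀ c : ℝ, (∀ w ∈ (∅ : Set E2), ‖f w‖ ≤ c) → ‖f z‖ ≤ c} = ∅ := by
      rw [eq_empty_iff_forall_notMem]
      rintro z ⟨_, hz⟩
      have := hz (fun _ => 1) (differentiableOn_const _) 0 (by simp)
      norm_num at this
    rw [this]
    exact isCompact_empty
  -- maximal modulus of the first coordinate
  obtain ⟨w0, hw0, hmax0⟩ := hK.exists_isMaxOn hne
    (f := fun w : E2 => ‖w 0‖) ((diff_coord 0).continuous.norm.continuousOn)
  have hΨc : Continuous Ψ := (Ψ_contDiff 0).continuous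
  have hcapc : Continuous cap := (cap_contDiff 0).continuous
  have hc0 : Continuous (fun w : E2 => w 0) := (diff_coord 0).continuous
  have hc1 : Continuous (fun w : E2 => w 1) := (diff_coord 1).continuous
  have hDpos : ∀ w ∈ Dom, 0 < √(1 - cap (w 0)) := fun w hw =>
    Real.sqrt_pos.2 (by linarith [cap_lt_of_mem hw])
  obtain ⟨w1, hw1, hmax1⟩ := hK.exists_isMaxOn hne
    (f := fun w : E2 => ‖w 1‖ * Real.exp (Ψ (w 0)) / √(1 - cap (w 0))) (by
      refine ContinuousOn.div (Continuous.continuousOn ?_) (Continuous.continuousOn ?_) ?_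
      · exact hc1.norm.mul (Real.continuous_exp.comp (hΨc.comp hc0))
      · exact Real.continuous_sqrt.comp (continuous_const.sub (hcapc.comp hc0))
      · intro w hw
        exact (hDpos w (hKΩ hw)).ne')
  set q : ℝ := ‖w1 1‖ * Real.exp (Ψ (w1 0)) / √(1 - cap (w1 0)) with hqdef
  have hq0 : 0 ≤ q := by
    have := hDpos w1 (hKΩ hw1)
    positivity
  have hq : ∀ w ∈ K, ‖w 1‖ * Real.exp (Ψ (w 0)) ≤ q * √(1 - cap (w 0)) := by
    intro w hw
    have h1 : ‖w 1‖ * Real.exp (Ψ (w 0)) / √(1 - cap (w 0)) ≤ q := hmax1 hw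
    rwa [div_le_iff₀ (hDpos w (hKΩ hw))] at h1
  have hq1 : q < 1 := by
    rw [hqdef, div_lt_one (hDpos w1 (hKΩ hw1))]
    refine Real.lt_sqrt_of_sq_lt ?_
    have h1 := hKΩ hw1
    rw [mem_Dom_iff] at h1
    have h2 : Real.exp (2 * Ψ (w1 0)) = Real.exp (Ψ (w1 0)) ^ 2 := by
      rw [← Real.exp_nat_mul]
      norm_num
    rw [h2] at h1
    rw [mul_pow]
    linarith
  -- the compact set containing the hull
  set C : Set E2 := {x | ‖x 0‖ ≤ ‖w0 0‖ ∧ ‖x 1‖ * Real.exp (Ψ (x 0)) ≤ q * √(1 - cap (x 0))} with hC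
  have hCclosed : IsClosed C := by
    have e1 : IsClosed {x : E2 | ‖x 0‖ ≤ ‖w0 0‖} := isClosed_le hc0.norm continuous_const
    have e2 : IsClosed {x : E2 | ‖x 1‖ * Real.exp (Ψ (x 0)) ≤ q * √(1 - cap (x 0))} :=
      isClosed_le (hc1.norm.mul (Real.continuous_exp.comp (hΨc.comp hc0)))
        (continuous_const.mul (Real.continuous_sqrt.comp (continuous_const.sub (hcapc.comp hc0))))
    exact e1.inter e2
  have hCsub : C ⊆ Dom := by
    intro x hx
    have hcap : cap (x 0) < 1 := (cap_mono hx.1).trans_lt (cap_lt_of_mem (hKΩ hw0))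
    rw [mem_Dom_iff]
    have hD : 0 < 1 - cap (x 0) := by linarith
    have h2 : Real.exp (2 * Ψ (x 0)) = Real.exp (Ψ (x 0)) ^ 2 := by
      rw [← Real.exp_nat_mul]
      norm_num
    have h3 : (‖x 1‖ * Real.exp (Ψ (x 0))) ^ 2 ≤ (q * √(1 - cap (x 0))) ^ 2 :=
      pow_le_pow_left₀ (by positivity) hx.2 2
    rw [mul_pow, mul_pow, Real.sq_sqrt hD.le] at h3
    have h4 : q ^ 2 < 1 := by nlinarith
    have h5 : q ^ 2 * (1 - cap (x 0)) < 1 * (1 - cap (x 0)) := by gcongr
    rw [h2]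
    linarith
  have hCcompact : IsCompact C := by
    refine Metric.isCompact_of_isClosed_isBounded hCclosed ?_
    exact isBounded_Dom.subset hCsub
  have hsub : {z ∈ Dom | ∀ f : E2 → ℂ, DifferentiableOn ℂ f Dom →
      ∀ c : ℝ, (∀ w ∈ K, ‖f w‖ ≤ c) → ‖f z‖ ≤ c} ⊆ C := by
    rintro x ⟨hxD, hx⟩
    refine ⟨?_, hull_le hK hKΩ hq0 hq hxD hx⟩
    exact hx (fun w => w 0) (diff_coord 0).differentiableOn _ fun w hw => hmax0 hw
  have heq : {z ∈ Dom | ∀ f : E2 → ℂ, DifferentiableOn ℂ f Dom →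
      ∀ c : ℝ, (∀ w ∈ K, ‖f w‖ ≤ c) → ‖f z‖ ≤ c} =
      C ∩ ⋂ (f : E2 → ℂ) (_ : DifferentiableOn ℂ f Dom) (c : ℝ) (_ : ∀ w ∈ K, ‖f w‖ ≤ c),
        (C ∩ (fun z => ‖f z‖) ⁻¹' Iic c) := by
    ext x
    constructor
    · intro hx
      have hxC := hsub hx
      refine ⟨hxC, ?_⟩
      simp only [mem_iInter]
      intro f hf c hc
      exact ⟨hxC, hx.2 f hf c hc⟩
    · rintro ⟨hxC, hx⟩
      refine ⟨hCsub hxC, fun f hf c hc => ?_⟩
      simp only [mem_iInter] at hx
      exact (hx f hf c hc).2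
  rw [heq]
  refine hCcompact.inter_right ?_
  refine isClosed_iInter fun f => isClosed_iInter fun hf => isClosed_iInter fun c =>
    isClosed_iInter fun hc => ?_
  exact (hf.continuousOn.mono hCsub).norm.preimage_isClosed_of_isClosed hCclosed isClosed_Iic

end Pool.Agent.Squeeze
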