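import Mathlib
import Pool.Agent.Helper23_Squeeze.Dom

/-! Near the `k`-th pair of wells, the contribution of all other wells is pluriharmonic. -/

set_option autoImplicit false
open Set Metric Filter Topology

namespace Pool.Agent.Squeeze

lemma sep {j k : ℕ} (h : j ≠ k) : 8 * dk k ≤ |zc k - zc j| := by
  have e1 : 8 * dk k = (1 / 2 : ℝ) ^ (k + 3) := by
    unfold dk
    rw [show k + 6 = (k + 3) + 3 by ring, pow_add]
    ring
  rw [e1]
  rcases lt_or_gt_of_ne h with hlt | hlt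
  · -- j < k
    have h1 : zc k ≤ (1 / 2 : ℝ) ^ (j + 3) := by
      unfold zc
      exact pow_le_pow_of_le_one (by norm_num) (by norm_num) (by omega)
    have h2 : zc j = 2 * (1 / 2 : ℝ) ^ (j + 3) := by
      unfold zc
      rw [show j + 3 = (j + 2) + 1 by ring, pow_succ]
      ring
    have h3 : (1 / 2 : ℝ) ^ (k + 3) ≤ (1 / 2 : ℝ) ^ (j + 3) :=
      pow_le_pow_of_le_one (by norm_num) (by norm_num) (by omega)
    rw [abs_sub_comm]
    exact (by linarith : (1 / 2 : ℝ) ^ (k + 3) ≤ zc j - zc k).trans (le_abs_self _)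
  · have h1 : zc j ≤ (1 / 2 : ℝ) ^ (k + 3) := by
      unfold zc
      exact pow_le_pow_of_le_one (by norm_num) (by norm_num) (by omega)
    have h2 : zc k = 2 * (1 / 2 : ℝ) ^ (k + 3) := by
      unfold zc
      rw [show k + 3 = (k + 2) + 1 by ring, pow_succ]
      ring
    exact (by linarith : (1 / 2 : ℝ) ^ (k + 3) ≤ zc k - zc j).trans (le_abs_self _)

lemma PP_z0 (k : ℕ) : (PP k).z0 = (zc k : ℂ) := rfl

lemma PP_d (k : ℕ) : (PP k).d = dk k := rfl

lemma PP_K (k : ℕ) : (PP k).K = Kk k := rfl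

lemma PP_r_le (k : ℕ) : (PP k).r ≤ dk k / 2 := (PP k).r_le

lemma norm_zc_sub (j k : ℕ) : ‖(zc k : ℂ) - zc j‖ = |zc k - zc j| := by
  rw [← Complex.ofReal_sub, Complex.norm_real, Real.norm_eq_abs]

/-- Distances from a point of the `k`-th disc to the `j`-th wells. -/
lemma dist_wells {j k : ℕ} (h : j ≠ k) {z : ℂ} (hz : z ∈ ball (zc k : ℂ) (dk k)) :
    ‖z - zc k‖ ≤ ‖(zc k : ℂ) - zc j‖ / 2 ∧
    ‖z - zc k‖ ≤ ‖(zc k : ℂ) - zc j - (PP j).r‖ / 2 ∧
    (PP j).r ≤ ‖z - zc j‖ ∧ (PP j).r ≤ ‖z - zc j - (PP j).r‖ := by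
  rw [mem_ball, dist_eq_norm] at hz
  have s1 := sep h
  have s2 := sep h.symm
  rw [abs_sub_comm] at s2
  have hr := PP_r_le j
  have hr0 := (PP j).r_pos
  have hdk := dk_pos k
  have e := norm_zc_sub j k
  set δ := |zc k - zc j| with hδ
  have a1 : δ - (PP j).r ≤ ‖(zc k : ℂ) - zc j - (PP j).r‖ := by
    have := norm_sub_norm_le ((zc k : ℂ) - zc j) ((PP j).r : ℂ)
    rw [e, Complex.norm_real, Real.norm_of_nonneg hr0.le] at this
    exact this
  have a2 : δ - ‖z - zc k‖ ≤ ‖z - zc j‖ := by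
    have h3 : (zc k : ℂ) - zc j = (z - zc j) - (z - zc k) := by ring
    have h4 := norm_sub_le (z - zc j) (z - zc k)
    rw [← h3, e] at h4
    linarith
  have a3 : ‖z - zc j‖ - (PP j).r ≤ ‖z - zc j - (PP j).r‖ := by
    have := norm_sub_norm_le (z - (zc j : ℂ)) ((PP j).r : ℂ)
    rw [Complex.norm_real, Real.norm_of_nonneg hr0.le] at this
    exact this
  rw [e]
  refine ⟨by linarith, by linarith, by linarith, by linarith⟩

/-- The holomorphic logarithm attached to the `j`-th wells on the `k`-th disc. -/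
noncomputable def hh (k j : ℕ) (z : ℂ) : ℂ :=
  Complex.log (1 + (z - zc k) / (zc k - zc j)) +
    Complex.log (1 + (z - zc k) / (zc k - zc j - (PP j).r))

lemma ratio_le_half {u v : ℂ} (h : ‖u‖ ≤ ‖v‖ / 2) : ‖u / v‖ ≤ 1 / 2 := by
  rw [norm_div]
  rcases (norm_nonneg v).eq_or_lt with h0 | h0
  · rw [← h0, div_zero]
    norm_num
  · rw [div_le_iff₀ h0]
    linarith

lemma one_add_mem_slitPlane {u : ℂ} (h : ‖u‖ ≤ 1 / 2) : 1 + u ∈ Complex.slitPlane := by
  left
  rw [Complex.add_re, Complex.one_re]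
  have := (abs_le.1 (Complex.abs_re_le_norm u)).1
  linarith

lemma norm_hh_le {j k : ℕ} (h : j ≠ k) {z : ℂ} (hz : z ∈ ball (zc k : ℂ) (dk k)) :
    ‖hh k j z‖ ≤ 3 / 2 := by
  obtain ⟨h1, h2, -, -⟩ := dist_wells h hz
  have e1 := ratio_le_half h1
  have e2 := ratio_le_half h2
  unfold hh
  calc _ ≤ ‖Complex.log (1 + (z - zc k) / (zc k - zc j))‖ +
      ‖Complex.log (1 + (z - zc k) / (zc k - zc j - (PP j).r))‖ := norm_add_le _ _
    _ ≤ 3 / 2 * ‖(z - zc k) / (zc k - zc j)‖ + 3 / 2 * ‖(z - zc k) / (zc k - zc j - (PP j).r)‖ :=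
      add_le_add (Complex.norm_log_one_add_half_le_self e1)
        (Complex.norm_log_one_add_half_le_self e2)
    _ ≤ 3 / 2 := by linarith

lemma hh_diff {j k : ℕ} (h : j ≠ k) : DifferentiableOn ℂ (hh k j) (ball (zc k : ℂ) (dk k)) := by
  intro z hz
  obtain ⟨h1, h2, -, -⟩ := dist_wells h hz
  have e1 := one_add_mem_slitPlane (ratio_le_half h1)
  have e2 := one_add_mem_slitPlane (ratio_le_half h2)
  refine DifferentiableAt.differentiableWithinAt ?_
  unfold hh
  have f1 : DifferentiableAt ℂ (fun z : ℂ => 1 + (z - zc k) / ((zc k : ℂ) - zc j)) z := by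
    fun_prop
  have f2 : DifferentiableAt ℂ (fun z : ℂ => 1 + (z - zc k) / ((zc k : ℂ) - zc j - (PP j).r)) z := by
    fun_prop
  exact (f1.clog e1).add (f2.clog e2)

lemma zc_sub_ne {j k : ℕ} (h : j ≠ k) :
    (zc k : ℂ) - zc j ≠ 0 ∧ (zc k : ℂ) - zc j - (PP j).r ≠ 0 := by
  have hz : (zc k : ℂ) ∈ ball (zc k : ℂ) (dk k) := mem_ball_self (dk_pos k)
  obtain ⟨-, -, h3, h4⟩ := dist_wells h hz
  have := (PP j).r_pos
  exact ⟨norm_pos_iff.1 (by linarith), norm_pos_iff.1 (by linarith)⟩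

lemma re_hh {j k : ℕ} (h : j ≠ k) {z : ℂ} (hz : z ∈ ball (zc k : ℂ) (dk k)) :
    (hh k j z).re = Real.log ‖(PP j).q z‖ - Real.log ‖(PP j).q (zc k)‖ := by
  obtain ⟨-, -, h3, h4⟩ := dist_wells h hz
  obtain ⟨n1, n2⟩ := zc_sub_ne h
  have hr := (PP j).r_pos
  have p1 : 0 < ‖z - zc j‖ := by linarith
  have p2 : 0 < ‖z - zc j - (PP j).r‖ := by linarith
  have p3 : 0 < ‖(zc k : ℂ) - zc j‖ := norm_pos_iff.2 n1
  have p4 : 0 < ‖(zc k : ℂ) - zc j - (PP j).r‖ := norm_pos_iff.2 n2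
  have e1 : 1 + (z - zc k) / ((zc k : ℂ) - zc j) = (z - zc j) / ((zc k : ℂ) - zc j) := by
    field_simp
    ring
  have e2 : 1 + (z - zc k) / ((zc k : ℂ) - zc j - (PP j).r) =
      (z - zc j - (PP j).r) / ((zc k : ℂ) - zc j - (PP j).r) := by
    field_simp
    ring
  unfold hh
  rw [Complex.add_re, Complex.log_re, Complex.log_re, e1, e2, norm_div, norm_div,
    Real.log_div p1.ne' p3.ne', Real.log_div p2.ne' p4.ne', (PP j).norm_q, (PP j).norm_q, PP_z0]
  have hE := Real.exp_pos (-(PP j).K)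
  have hden : (PP j).r ^ 2 * Real.exp (-(PP j).K) ≠ 0 := by positivity
  rw [Real.log_div (by positivity) hden, Real.log_div (by positivity) hden,
    Real.log_mul p1.ne' p2.ne', Real.log_mul p3.ne' p4.ne']
  ring

lemma one_le_norm_q {j k : ℕ} (h : j ≠ k) {z : ℂ} (hz : z ∈ ball (zc k : ℂ) (dk k)) :
    1 ≤ ‖(PP j).q z‖ := by
  obtain ⟨-, -, h3, h4⟩ := dist_wells h hz
  have hr := (PP j).r_pos
  rw [(PP j).norm_q, PP_z0, le_div_iff₀ (by positivity), one_mul]
  have hE : Real.exp (-(PP j).K) ≤ 1 := by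
    rw [Real.exp_le_one_iff]
    linarith [(PP j).K_pos]
  have h5 : (PP j).r * (PP j).r ≤ ‖z - zc j‖ * ‖z - zc j - (PP j).r‖ := by gcongr
  calc (PP j).r ^ 2 * Real.exp (-(PP j).K) ≤ (PP j).r ^ 2 * 1 := by gcongr
    _ = (PP j).r * (PP j).r := by ring
    _ ≤ _ := h5

lemma ball_small {k : ℕ} {z : ℂ} (hz : z ∈ ball (zc k : ℂ) (dk k)) : ‖z‖ ≤ 1 / 2 := by
  rw [mem_ball, dist_eq_norm] at hz
  have h1 : zc k ≤ 1 / 4 := by
    unfold zc
    calc (1 / 2 : ℝ) ^ (k + 2) ≤ (1 / 2) ^ 2 :=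
        pow_le_pow_of_le_one (by norm_num) (by norm_num) (by omega)
      _ = 1 / 4 := by norm_num
  have h2 : dk k ≤ 1 / 4 := by
    unfold dk
    calc (1 / 2 : ℝ) ^ (k + 6) ≤ (1 / 2) ^ 2 :=
        pow_le_pow_of_le_one (by norm_num) (by norm_num) (by omega)
      _ = 1 / 4 := by norm_num
  have h3 : ‖z‖ ≤ ‖z - zc k‖ + ‖(zc k : ℂ)‖ := by
    have := norm_add_le (z - zc k) (zc k : ℂ)
    rwa [sub_add_cancel] at this
  rw [Complex.norm_real, Real.norm_of_nonneg (zc_pos k).le] at h3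
  linarith

/-- The terms of the holomorphic logarithm. -/
noncomputable def HF (k j : ℕ) (z : ℂ) : ℂ :=
  if j = k then 0 else (((4 * mk j : ℝ)⁻¹ : ℝ) : ℂ) * hh k j z

/-- The holomorphic logarithm. -/
noncomputable def HH (k : ℕ) (z : ℂ) : ℂ := ∑' j, HF k j z

lemma eps_le (j : ℕ) : (4 * mk j : ℝ)⁻¹ * (3 / 2) ≤ (1 / 2) ^ j := by
  have h1 : (2 : ℝ) ^ j ≤ mk j := by exact_mod_cast mk_ge' j
  have h2 := mk_pos j
  rw [inv_mul_le_iff₀ (by positivity), one_div, inv_pow]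
  have h3 : 1 ≤ (mk j : ℝ) * ((2 : ℝ) ^ j)⁻¹ := by
    rw [← div_eq_mul_inv, one_le_div (by positivity)]
    exact h1
  nlinarith

lemma norm_HF_le {k j : ℕ} {z : ℂ} (hz : z ∈ ball (zc k : ℂ) (dk k)) :
    ‖HF k j z‖ ≤ (1 / 2) ^ j := by
  unfold HF
  split_ifs with h
  · rw [norm_zero]
    positivity
  · have h2 := mk_pos j
    rw [norm_mul, Complex.norm_real, Real.norm_of_nonneg (by positivity)]
    refine le_trans ?_ (eps_le j)
    gcongr
    exact norm_hh_le h hz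

lemma HH_diff (k : ℕ) : DifferentiableOn ℂ (HH k) (ball (zc k : ℂ) (dk k)) := by
  unfold HH
  refine Complex.differentiableOn_tsum_of_summable_norm summable_half (fun j => ?_) isOpen_ball
    fun j z hz => norm_HF_le hz
  unfold HF
  split_ifs with h
  · exact differentiableOn_const 0
  · exact (hh_diff h).const_mul _

lemma HH_centre (k : ℕ) : HH k (zc k) = 0 := by
  unfold HH
  have : ∀ j, HF k j (zc k) = 0 := by
    intro j
    unfold HF hh
    split_ifs with h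
    · rfl
    · simp
  simp [this]

/-- The local representation of the weight. -/
lemma Ψ_local {k : ℕ} {z : ℂ} (hz : z ∈ ball (zc k : ℂ) (dk k)) :
    Ψ z = Ψ (zc k) + (PP k).ψ z + (HH k z).re := by
  have hc : (zc k : ℂ) ∈ ball (zc k : ℂ) (dk k) := mem_ball_self (dk_pos k)
  have hz1 : ‖z‖ ≤ 1 := (ball_small hz).trans (by norm_num)
  have hc1 : ‖(zc k : ℂ)‖ ≤ 1 := (ball_small hc).trans (by norm_num)
  have s1 : HasSum (fun j => term j z - term j (zc k)) (Ψ z - Ψ (zc k)) :=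
    (summable_term z).hasSum.sub (summable_term (zc k)).hasSum
  have s2 : HasSum (fun j => HF k j z) (HH k z) :=
    (Summable.of_norm_bounded summable_half fun j => norm_HF_le hz).hasSum
  have s3 : HasSum (fun j => (HF k j z).re) (HH k z).re := Complex.hasSum_re s2
  have s4 : HasSum (fun j => if j = k then (PP k).ψ z else 0) ((PP k).ψ z) := by
    have := hasSum_ite_eq k ((PP k).ψ z)
    exact this
  have e : ∀ j, term j z - term j (zc k) = (HF k j z).re + (if j = k then (PP k).ψ z else 0) := by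
    intro j
    rw [term_eq hz1, term_eq hc1]
    unfold HF
    split_ifs with h
    · subst h
      have : (PP j).ψ (zc j) = 0 := by
        unfold Params.ψ
        rw [← PP_z0, (PP j).φ_z0, zero_div]
      rw [this]
      simp
    · rw [Complex.re_ofReal_mul, re_hh h hz, add_zero]
      unfold Params.ψ Params.φ
      rw [uf_sq_of_one_le (one_le_norm_q h hz), uf_sq_of_one_le (one_le_norm_q h hc)]
      have hN : ((PP j).N : ℝ) = 4 * mk j := by
        rw [Params.N_eq]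
        rfl
      rw [hN]
      have := mk_pos j
      field_simp
      ring
  have s5 := (s3.add s4)
  have s6 : HasSum (fun j => term j z - term j (zc k)) ((HH k z).re + (PP k).ψ z) := by
    refine s5.congr_fun ?_
    exact e
  have := s1.unique s6
  linarith

lemma cap_local {k : ℕ} {z : ℂ} (hz : z ∈ ball (zc k : ℂ) (dk k)) : cap z = 0 := by
  unfold cap
  rw [uf_zero, zero_div]
  have := ball_small hz
  nlinarith [norm_nonneg z]

/-- Membership in the domain over the `k`-th disc. -/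
lemma mem_Dom_local {k : ℕ} {x : E2} (hz : x 0 ∈ ball (zc k : ℂ) (dk k)) :
    x ∈ Dom ↔ ‖x 1 * Complex.exp (HH k (x 0)) / (Real.exp (-Ψ (zc k)) : ℝ)‖ <
      Real.exp (-(PP k).ψ (x 0)) := by
  rw [mem_Dom_iff, cap_local hz, add_zero]
  have h1 : ‖x 1 * Complex.exp (HH k (x 0)) / (Real.exp (-Ψ (zc k)) : ℝ)‖ =
      ‖x 1‖ * Real.exp ((HH k (x 0)).re + Ψ (zc k)) := by
    rw [norm_div, norm_mul, Complex.norm_exp, Complex.norm_real,
      Real.norm_of_nonneg (Real.exp_pos _).le, Real.exp_add, Real.exp_neg, div_inv_eq_mul]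
    ring
  have h2 : Real.exp (2 * Ψ (x 0)) = Real.exp (Ψ (x 0)) ^ 2 := by
    rw [← Real.exp_nat_mul]
    norm_num
  rw [h1, h2, ← mul_pow]
  have h3 : Real.exp (Ψ (x 0)) = Real.exp ((HH k (x 0)).re + Ψ (zc k)) * Real.exp ((PP k).ψ (x 0)) := by
    rw [← Real.exp_add, Ψ_local hz]
    congr 1
    ring
  have h4 : ‖x 1‖ * Real.exp (Ψ (x 0)) =
      (‖x 1‖ * Real.exp ((HH k (x 0)).re + Ψ (zc k))) * Real.exp ((PP k).ψ (x 0)) := by
    rw [h3]
    ring
  rw [h4, Real.exp_neg, sq_lt_one_iff₀ (by positivity), ← lt_div_iff₀ (Real.exp_pos _), one_div]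

end Pool.Agent.Squeeze
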