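import Mathlib
import Pool.Agent.Helper23_Squeeze.Flat
import Pool.Agent.Helper23_Squeeze.Conv

/-! The squeezing function of the domain is not bounded away from zero. -/

set_option autoImplicit false
open Set Metric Filter Topology

namespace Pool.Agent.Squeeze

/-- The point of two-space over `z` with normalised height `w`, near the `k`-th wells. -/
noncomputable def pt (k : ℕ) (p : ℂ × ℂ) : E2 :=
  toPair.symm (p.1, (Real.exp (-Ψ (zc k)) : ℝ) * Complex.exp (-HH k p.1) * p.2)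

lemma pt_zero (k : ℕ) (p : ℂ × ℂ) : (pt k p) 0 = p.1 := toPair_symm_apply_zero _

lemma pt_one (k : ℕ) (p : ℂ × ℂ) :
    (pt k p) 1 = (Real.exp (-Ψ (zc k)) : ℝ) * Complex.exp (-HH k p.1) * p.2 :=
  toPair_symm_apply_one _

lemma pt_mem {k : ℕ} {p : ℂ × ℂ} (hp : p ∈ (PP k).dom) : pt k p ∈ Dom := by
  have h1 : (pt k p) 0 ∈ ball (zc k : ℂ) (dk k) := by
    rw [pt_zero]
    exact hp.1
  rw [mem_Dom_local h1, pt_zero, pt_one]
  have h2 : (Real.exp (-Ψ (zc k)) : ℝ) * Complex.exp (-HH k p.1) * p.2 * Complex.exp (HH k p.1) /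
      (Real.exp (-Ψ (zc k)) : ℝ) = p.2 := by
    have h3 : ((Real.exp (-Ψ (zc k)) : ℝ) : ℂ) ≠ 0 := by
      exact_mod_cast (Real.exp_pos _).ne'
    rw [Complex.exp_neg]
    have := Complex.exp_ne_zero (HH k p.1)
    field_simp
  rw [h2]
  exact hp.2

lemma pt_diff (k : ℕ) : DifferentiableOn ℂ (pt k) (PP k).dom := by
  intro p hp
  have h1 : DifferentiableAt ℂ (HH k) p.1 :=
    (HH_diff k p.1 hp.1).differentiableAt (isOpen_ball.mem_nhds hp.1)
  refine DifferentiableAt.differentiableWithinAt ?_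
  unfold pt
  refine toPair.symm.differentiable.differentiableAt.comp p ?_
  refine DifferentiableAt.prodMk differentiableAt_fst ?_
  refine DifferentiableAt.mul (DifferentiableAt.mul (differentiableAt_const _) ?_)
    differentiableAt_snd
  exact (h1.comp p differentiableAt_fst).neg.cexp

/-- For large `k`, no map with image containing the ball of radius `c`. -/
theorem no_squeeze {c : ℝ} (hc : 0 < c) {k : ℕ} (hk : 1152 / c ≤ 2 ^ k)
    {f : E2 → E2} (hf : DifferentiableOn ℂ f Dom) (hinj : InjOn f Dom)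
    (hmaps : MapsTo f Dom (ball 0 1)) (hf0 : f (pt k ((PP k).z0, ((PP k).a : ℂ))) = 0)
    (himg : ball 0 c ⊆ f '' Dom) : False := by
  set P := PP k with hP
  have ha0 := P.a_pos
  have ha1 := P.a_lt_one
  have hr := P.r_pos
  have hz1 : P.z0 + P.r ∈ ball P.z0 P.d := by
    rw [mem_ball, dist_eq_norm, add_sub_cancel_left, Complex.norm_real, Real.norm_of_nonneg hr.le]
    linarith [P.r_le, P.hd]
  have hp0 : (P.z0, (P.a : ℂ)) ∈ P.dom := by
    refine ⟨mem_ball_self P.hd, ?_⟩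
    simp only [Params.ψ, P.φ_z0, zero_div, neg_zero, Real.exp_zero]
    rw [Complex.norm_real, Real.norm_of_nonneg ha0.le]
    exact ha1
  have hp1 : (P.z0 + P.r, (P.a : ℂ)) ∈ P.dom := by
    refine ⟨hz1, ?_⟩
    simp only [Params.ψ, P.φ_z1, zero_div, neg_zero, Real.exp_zero]
    rw [Complex.norm_real, Real.norm_of_nonneg ha0.le]
    exact ha1
  -- closeness
  have hclose := P.close (g := fun p => f (pt k p)) (hf.comp (pt_diff k) fun p hp => pt_mem hp)
    (fun p hp => by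
      have := hmaps (pt_mem hp)
      rw [mem_ball, dist_zero_right] at this
      exact this.le)
  set Q := pt k (P.z0 + P.r, (P.a : ℂ)) with hQ
  have hclose' : ‖f Q‖ ≤ 2 * Real.exp (-P.K / 16) := by
    have e : f (pt k (P.z0, (P.a : ℂ))) - f (pt k (P.z0 + P.r, (P.a : ℂ))) = -f Q := by
      rw [hf0, zero_sub]
    rw [e, norm_neg] at hclose
    exact hclose
  set v := f Q with hv
  have hQmem : Q ∈ Dom := pt_mem hp1
  have hPmem : pt k (P.z0, (P.a : ℂ)) ∈ Dom := pt_mem hp0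
  have hvne : v ≠ 0 := by
    intro h0
    have h1 : Q = pt k (P.z0, (P.a : ℂ)) := hinj hQmem hPmem (by rw [hf0, ← h0])
    have h2 := congrArg (fun x : E2 => x 0) h1
    simp only [hQ, pt_zero] at h2
    have h3 : (P.r : ℂ) = 0 := by linear_combination h2
    exact hr.ne' (by exact_mod_cast h3)
  have hvpos : 0 < ‖v‖ := norm_pos_iff.2 hvne
  -- inverse
  obtain ⟨G, hG, hGmem⟩ := exists_holo_inverse isOpen_Dom hf hinj isOpen_ball himg
  set T : ℝ := c / ‖v‖ with hT
  have hTpos : 0 < T := by positivity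
  have hmemc : ∀ t ∈ ball (0 : ℂ) T, t • v ∈ ball (0 : E2) c := by
    intro t ht
    rw [mem_ball, dist_zero_right] at ht ⊢
    rw [norm_smul]
    calc ‖t‖ * ‖v‖ < T * ‖v‖ := by gcongr
      _ = c := by rw [hT]; field_simp
  set γ : ℂ → E2 := fun t => G (t • v) with hγ
  have hγd : DifferentiableOn ℂ γ (ball 0 T) := by
    intro t ht
    have h1 := (hG _ (hmemc t ht)).differentiableAt (isOpen_ball.mem_nhds (hmemc t ht))
    exact (h1.comp (f := fun t : ℂ => t • v) t (by fun_prop)).differentiableWithinAt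
  have hγmem : ∀ t ∈ ball (0 : ℂ) T, γ t ∈ Dom ∧ f (γ t) = t • v := fun t ht =>
    hGmem _ (hmemc t ht)
  -- the size of `T`
  set T1 : ℝ := T * dk k / 4 with hT1
  have hdk1 : dk k ≤ 1 := by
    unfold dk
    exact pow_le_one₀ (by norm_num) (by norm_num)
  have hdkpos := dk_pos k
  have hT1big : 9 ≤ T1 := by
    have h1 : c * Real.exp (2 * (k + 1)) / 2 ≤ T := by
      have hK : -P.K / 16 = -(2 * ((k : ℝ) + 1)) := by
        rw [hP, PP_K]
        unfold Kk
        ring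
      rw [hK, Real.exp_neg] at hclose'
      rw [hT, le_div_iff₀ hvpos]
      have hE := Real.exp_pos (2 * ((k : ℝ) + 1))
      calc c * Real.exp (2 * (k + 1)) / 2 * ‖v‖
          ≤ c * Real.exp (2 * (k + 1)) / 2 * (2 * (Real.exp (2 * (k + 1)))⁻¹) := by gcongr
        _ = c := by field_simp
    have h2 : (4 : ℝ) ^ (k + 1) ≤ Real.exp (2 * (k + 1)) := by
      have e1 : Real.exp (2 * ((k : ℝ) + 1)) = Real.exp 2 ^ (k + 1) := by
        rw [← Real.exp_nat_mul]
        congr 1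
        push_cast
        ring
      rw [e1]
      refine pow_le_pow_left₀ (by norm_num) ?_ _
      have e2 : Real.exp 2 = Real.exp 1 * Real.exp 1 := by
        rw [← Real.exp_add]
        norm_num
      have e3 : (2.718 : ℝ) ≤ Real.exp 1 := by linarith [Real.exp_one_gt_d9]
      rw [e2]
      nlinarith
    have h3 : 2 ^ k / 16 ≤ (4 : ℝ) ^ (k + 1) * dk k := by
      have e1 : (4 : ℝ) ^ (k + 1) = 4 * (2 ^ k * 2 ^ k) := by
        rw [pow_succ, show (4 : ℝ) = 2 * 2 by norm_num, mul_pow]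
        ring
      have e2 : dk k = ((2 : ℝ) ^ k)⁻¹ / 64 := by
        unfold dk
        rw [pow_add, one_div, inv_pow]
        norm_num
        ring
      rw [e1, e2]
      have : (0 : ℝ) < 2 ^ k := by positivity
      field_simp
      norm_num
    have h4 : 1152 ≤ c * 2 ^ k := by
      rw [div_le_iff₀ hc] at hk
      linarith
    calc (9 : ℝ) = 1152 / 128 := by norm_num
      _ ≤ c * 2 ^ k / 128 := by gcongr
      _ = c / 2 * (2 ^ k / 16) / 4 := by ring
      _ ≤ c / 2 * ((4 : ℝ) ^ (k + 1) * dk k) / 4 := by gcongr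
      _ ≤ c / 2 * (Real.exp (2 * (k + 1)) * dk k) / 4 := by gcongr
      _ = (c * Real.exp (2 * (k + 1)) / 2) * dk k / 4 := by ring
      _ ≤ T * dk k / 4 := by gcongr
  have hT1T : T1 < T := by
    rw [hT1]
    nlinarith
  have hsub : ball (0 : ℂ) T1 ⊆ ball 0 T := ball_subset_ball hT1T.le
  have h0T : (0 : ℂ) ∈ ball (0 : ℂ) T := mem_ball_self hTpos
  have h1T : (1 : ℂ) ∈ ball (0 : ℂ) T := by
    rw [mem_ball, dist_zero_right, norm_one]
    linarith
  have hγ0 : γ 0 = pt k (P.z0, (P.a : ℂ)) := by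
    obtain ⟨h1, h2⟩ := hγmem 0 h0T
    exact hinj h1 hPmem (by rw [h2, hf0, zero_smul])
  have hγ1 : γ 1 = Q := by
    obtain ⟨h1, h2⟩ := hγmem 1 h1T
    exact hinj h1 hQmem (by rw [h2, one_smul])
  -- first coordinate
  set ζ : ℂ → ℂ := fun t => (γ t) 0 with hζ
  have hζd : DifferentiableOn ℂ ζ (ball 0 T) := (diff_coord 0).comp_differentiableOn hγd
  have hζ0 : ζ 0 = P.z0 := by
    simp only [hζ]
    rw [hγ0, pt_zero]
  have hζ1 : ζ 1 = P.z0 + P.r := by
    simp only [hζ]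
    rw [hγ1, hQ, pt_zero]
  have hζball : ∀ t ∈ ball (0 : ℂ) T1, ζ t ∈ ball (zc k : ℂ) (dk k) := by
    intro t ht
    have h1 := Complex.dist_le_div_mul_dist_of_mapsTo_ball (f := ζ) (c := 0) (R₁ := T) (R₂ := 2)
      (z := t) hζd (by
        intro s hs
        rw [mem_closedBall, dist_eq_norm]
        have e1 := (norm_lt_of_mem (hγmem s hs).1).1
        have e2 := (norm_lt_of_mem (hγmem 0 h0T).1).1
        calc ‖ζ s - ζ 0‖ ≤ ‖ζ s‖ + ‖ζ 0‖ := norm_sub_le _ _
          _ ≤ 2 := by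
            simp only [hζ]
            linarith) (hsub ht)
    rw [hζ0, dist_zero_right] at h1
    rw [mem_ball, dist_zero_right] at ht
    rw [mem_ball]
    refine h1.trans_lt ?_
    have h2 : 2 / T * ‖t‖ < 2 / T * T1 := by gcongr
    have h3 : 2 / T * T1 = dk k / 2 := by
      rw [hT1]
      field_simp
      norm_num
    linarith
  -- the normalised height
  set ω : ℂ → ℂ := fun t => (γ t) 1 * Complex.exp (HH k (ζ t)) / (Real.exp (-Ψ (zc k)) : ℝ) with hω
  have hωd : DifferentiableOn ℂ ω (ball 0 T1) := by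
    have e1 : DifferentiableOn ℂ (fun t => (γ t) 1) (ball 0 T1) :=
      ((diff_coord 1).comp_differentiableOn hγd).mono hsub
    have e2 : DifferentiableOn ℂ (fun t => HH k (ζ t)) (ball 0 T1) :=
      (HH_diff k).comp (hζd.mono hsub) hζball
    exact (e1.mul e2.cexp).div_const _
  have hωmem : ∀ t ∈ ball (0 : ℂ) T1, ‖ω t‖ < Real.exp (-P.ψ (ζ t)) := by
    intro t ht
    exact (mem_Dom_local (hζball t ht)).1 (hγmem t (hsub ht)).1
  have hω0 : ω 0 = P.a := by
    simp only [hω]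
    rw [hζ0, hγ0, pt_one]
    have h1 : HH k P.z0 = 0 := HH_centre k
    rw [h1]
    have h3 : ((Real.exp (-Ψ (zc k)) : ℝ) : ℂ) ≠ 0 := by
      exact_mod_cast (Real.exp_pos _).ne'
    simp only [neg_zero, Complex.exp_zero, mul_one]
    field_simp
  exact P.no_disc hT1big (hζd.mono hsub) hωd hωmem hζ0 hζ1 hω0

/-- The domain is a counterexample. -/
theorem counterexample :
    ¬ (∀ Ω : Set (EuclideanSpace ℂ (Fin 2)),
    IsOpen Ω → IsConnected Ω → Bornology.IsBounded Ω →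
    (∃ ρ : EuclideanSpace ℂ (Fin 2) → ℝ,
      (∀ n : ℕ, ContDiff ℝ n ρ) ∧ Ω = {z | ρ z < 0} ∧
      ∀ z, ρ z = 0 → fderiv ℝ ρ z ≠ 0) →
    (∀ K : Set (EuclideanSpace ℂ (Fin 2)), IsCompact K → K ⊆ Ω →
      IsCompact {z ∈ Ω | ∀ f : EuclideanSpace ℂ (Fin 2) → ℂ, DifferentiableOn ℂ f Ω →
        ∀ c : ℝ, (∀ w ∈ K, ‖f w‖ ≤ c) → ‖f z‖ ≤ c}) →
    ∃ c : ℝ, 0 < c ∧ ∀ z ∈ Ω,
      ∃ f : EuclideanSpace ℂ (Fin 2) → EuclideanSpace ℂ (Fin 2),
        DifferentiableOn ℂ f Ω ∧ Set.InjOn f Ω ∧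
        Set.MapsTo f Ω (Metric.ball 0 1) ∧ f z = 0 ∧
        Metric.ball 0 c ⊆ f '' Ω) := by
  intro h
  obtain ⟨c, hc, hsq⟩ := h Dom isOpen_Dom isConnected_Dom isBounded_Dom
    ⟨rho, rho_contDiff, rfl, fun z hz => rho_grad hz⟩ holo_convex
  obtain ⟨k, hk⟩ := pow_unbounded_of_one_lt (1152 / c) (one_lt_two : (1 : ℝ) < 2)
  have hp0 : ((PP k).z0, ((PP k).a : ℂ)) ∈ (PP k).dom := by
    refine ⟨mem_ball_self (PP k).hd, ?_⟩
    simp only [Params.ψ, (PP k).φ_z0, zero_div, neg_zero, Real.exp_zero]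
    rw [Complex.norm_real, Real.norm_of_nonneg (PP k).a_pos.le]
    exact (PP k).a_lt_one
  obtain ⟨f, hf, hinj, hmaps, hf0, himg⟩ := hsq _ (pt_mem hp0)
  exact no_squeeze hc hk.le hf hinj hmaps hf0 himg

end Pool.Agent.Squeeze
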